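import Mathlib.Algebra.BigOperators.Field
import Mathlib.Topology.Sheaves.Presheaf
import Mathlib.RingTheory.Flat.TorsionFree
import Mathlib.Data.Int.Star
import Mathlib.Algebra.Order.Ring.Star
import Mathlib.FieldTheory.Finite.Basic
import Mathlib.Analysis.SpecialFunctions.Pow.Real
import Mathlib.Algebra.Order.Chebyshev
import Mathlib.Algebra.Order.Star.Real
import Mathlib.Algebra.Ring.IsFormallyReal
import Mathlib.Analysis.CStarAlgebra.Classes
import Mathlib.Combinatorics.SimpleGraph.Basic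
import Mathlib.RingTheory.PiTensorProduct
import Mathlib.RingTheory.SimpleRing.Principal
import Mathlib.RingTheory.Henselian
import Mathlib.RingTheory.RegularLocalRing.Defs
import Mathlib.Tactic.Polynomial.Basic

-- ======== part 0: formerly Pool.Agent.MP_36ae60_an.Basic
section MrgPart0

set_option autoImplicit false

open Finset

namespace Pool.Agent.MP_36ae60_an

/-- Plancherel for a kernel with orthogonal rows. -/
lemma plancherel_gen {α β : Type} [Fintype α] [Fintype β] [DecidableEq α] (k : α → β → ℂ) (c : ℝ)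
    (hk : ∀ a a', ∑ b, k a b * (starRingEnd ℂ) (k a' b) = if a = a' then (c : ℂ) else 0)
    (g : α → ℂ) : ∑ b, ‖∑ a, g a * k a b‖ ^ 2 = c * ∑ a, ‖g a‖ ^ 2 := by
  have h1 : ∀ z : ℂ, ((‖z‖ ^ 2 : ℝ) : ℂ) = z * (starRingEnd ℂ) z := by
    intro z
    rw [Complex.mul_conj, Complex.normSq_eq_norm_sq]
  apply Complex.ofReal_injective
  push_cast
  have h2 : ∀ z : ℂ, ((‖z‖ : ℝ) : ℂ) ^ 2 = z * (starRingEnd ℂ) z := by
    intro z
    rw [← h1]; push_cast; ring
  simp only [h2, map_sum, map_mul]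
  calc ∑ b, (∑ a, g a * k a b) * ∑ a', (starRingEnd ℂ) (g a') * (starRingEnd ℂ) (k a' b)
      = ∑ b, ∑ a, ∑ a', (g a * (starRingEnd ℂ) (g a')) * (k a b * (starRingEnd ℂ) (k a' b)) := by
        refine sum_congr rfl fun b _ => ?_
        rw [sum_mul_sum]
        refine sum_congr rfl fun a _ => sum_congr rfl fun a' _ => by ring
    _ = ∑ a, ∑ a', (g a * (starRingEnd ℂ) (g a')) * ∑ b, (k a b * (starRingEnd ℂ) (k a' b)) := by
        rw [sum_comm]
        refine sum_congr rfl fun a _ => ?_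
        rw [sum_comm]
        refine sum_congr rfl fun a' _ => ?_
        rw [mul_sum]
    _ = ∑ a, (g a * (starRingEnd ℂ) (g a)) * c := by
        refine sum_congr rfl fun a _ => ?_
        simp only [hk, mul_ite, mul_zero]
        rw [sum_ite_eq]
        simp
    _ = _ := by
        rw [mul_sum]
        refine sum_congr rfl fun a _ => by ring

section Fourier

variable {F : Type} [Field F] [Fintype F] [DecidableEq F]
variable {V : Type} [AddCommGroup V] [Module F V] [Fintype V] [DecidableEq V]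

/-- Fourier transform with respect to a bilinear form. -/
noncomputable def ft (B : V →ₗ[F] V →ₗ[F] F) (χ : AddChar F ℂ) (g : V → ℂ) (ξ : V) : ℂ :=
  ∑ x, g x * χ (-(B x ξ))

omit [Fintype F] [DecidableEq F] in
lemma orth (B : V →ₗ[F] V →ₗ[F] F) (hnd : ∀ x, (∀ y, B x y = 0) → x = 0)
    (χ : AddChar F ℂ) (hχ : χ ≠ 1) (x : V) :
    ∑ ξ, χ (B x ξ) = if x = 0 then (Fintype.card V : ℂ) else 0 := by
  split_ifs with hx
  · simp [hx]
  · have : ∃ y, B x y ≠ 0 := by
      by_contra h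
      push Not at h
      exact hx (hnd x h)
    obtain ⟨y, hy⟩ := this
    obtain ⟨t, ht⟩ := AddChar.ne_one_iff.mp hχ
    let ψ : AddChar V ℂ := χ.compAddMonoidHom (B x).toAddMonoidHom
    have hψ : ψ ≠ 0 := by
      intro h
      have := DFunLike.congr_fun h ((t / B x y) • y)
      simp [ψ, div_mul_cancel₀ _ hy] at this
      exact ht this
    have := AddChar.sum_eq_zero_iff_ne_zero.mpr hψ
    simpa [ψ] using this

omit [DecidableEq F] in
lemma plancherel (B : V →ₗ[F] V →ₗ[F] F) (hnd : ∀ x, (∀ y, B x y = 0) → x = 0)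
    (χ : AddChar F ℂ) (hχ : χ ≠ 1) (g : V → ℂ) :
    ∑ ξ, ‖ft B χ g ξ‖ ^ 2 = (Fintype.card V : ℝ) * ∑ x, ‖g x‖ ^ 2 := by
  unfold ft
  apply plancherel_gen (fun x ξ => χ (-(B x ξ)))
  intro a a'
  have : ∀ b, χ (-(B a b)) * (starRingEnd ℂ) (χ (-(B a' b))) = χ (B (a' - a) b) := by
    intro b
    rw [← AddChar.map_neg_eq_conj, ← AddChar.map_add_eq_mul]
    congr 1
    simp only [map_sub, LinearMap.sub_apply]; ring
  simp only [this, orth B hnd χ hχ, sub_eq_zero]
  by_cases h : a = a'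
  · simp [h]
  · simp [h, Ne.symm h]

lemma plancherel_field (χ : AddChar F ℂ) (hχ : χ ≠ 1) (g : F → ℂ) :
    ∑ s, ‖∑ t, g t * χ (-(t * s))‖ ^ 2 = (Fintype.card F : ℝ) * ∑ t, ‖g t‖ ^ 2 := by
  have := plancherel (V := F) (LinearMap.mul F F) (by
    intro x hx
    simpa using hx 1) χ hχ g
  simpa [ft] using this

omit [DecidableEq F] [DecidableEq V] in
lemma norm_ft_le (B : V →ₗ[F] V →ₗ[F] F) (χ : AddChar F ℂ) (g : V → ℂ) (ξ : V) :
    ‖ft B χ g ξ‖ ≤ ∑ x, ‖g x‖ := by
  unfold ft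
  refine (norm_sum_le _ _).trans (le_of_eq ?_)
  refine sum_congr rfl fun x _ => ?_
  rw [norm_mul, AddChar.norm_apply, mul_one]

end Fourier

section Counting

variable {F : Type} [Field F] [Fintype F] [DecidableEq F]
variable {V : Type} [AddCommGroup V] [Module F V] [Fintype V] [DecidableEq V]

omit [DecidableEq F] [DecidableEq V] in
/-- Double counting along the lines of direction `e`. -/
lemma dc (H P : V → Prop) [DecidablePred H] [DecidablePred P] (e : V)
    (hH : ∀ x (t : F), H x → H (x + t • e)) :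
    Fintype.card F * (univ.filter fun x => H x ∧ P x).card
      = ∑ x ∈ univ.filter H, (univ.filter fun t : F => P (x + t • e)).card := by
  have h1 : ∀ t : F, (univ.filter fun x => H x ∧ P x).card
      = ∑ x ∈ univ.filter H, if P (x + t • e) then 1 else 0 := by
    intro t
    rw [← card_filter, filter_filter]
    symm
    apply card_bij (fun x _ => x + t • e)
    · intro x hx
      simp only [mem_filter, mem_univ, true_and] at hx ⊢
      exact ⟨hH x t hx.1, hx.2⟩
    · intro x _ y _ h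
      exact add_right_cancel h
    · intro y hy
      simp only [mem_filter, mem_univ, true_and] at hy
      refine ⟨y + (-t) • e, ?_, ?_⟩
      · simp only [mem_filter, mem_univ, true_and]
        refine ⟨hH y (-t) hy.1, ?_⟩
        have : y + (-t) • e + t • e = y := by simp
        rw [this]; exact hy.2
      · simp
  calc Fintype.card F * (univ.filter fun x => H x ∧ P x).card
      = ∑ _t : F, (univ.filter fun x => H x ∧ P x).card := by simp
    _ = ∑ t : F, ∑ x ∈ univ.filter H, if P (x + t • e) then 1 else 0 :=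
        sum_congr rfl fun t _ => h1 t
    _ = _ := by
        rw [sum_comm]
        refine sum_congr rfl fun x _ => ?_
        rw [card_filter]

/-- A nonzero polynomial of degree at most two has at most two roots. -/
lemma card_quad_le (a b c : F) (h : ¬ (a = 0 ∧ b = 0 ∧ c = 0)) :
    (univ.filter fun t : F => a * t ^ 2 + b * t + c = 0).card ≤ 2 := by
  let p : Polynomial F := Polynomial.C a * Polynomial.X ^ 2 + Polynomial.C b * Polynomial.X
    + Polynomial.C c
  have hp : p ≠ 0 := by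
    intro h0
    apply h
    have h2 := congrArg (fun r => Polynomial.coeff r 2) h0
    have h1 := congrArg (fun r => Polynomial.coeff r 1) h0
    have h3 := congrArg (fun r => Polynomial.coeff r 0) h0
    simp [p, Polynomial.coeff_X, Polynomial.coeff_C] at h1 h2 h3
    exact ⟨h2, h1, h3⟩
  have hdeg : p.natDegree ≤ 2 := Polynomial.natDegree_quadratic_le
  refine le_trans ?_ hdeg
  apply Polynomial.card_le_degree_of_subset_roots
  intro t ht
  have ht' : a * t ^ 2 + b * t + c = 0 := by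
    simpa using ht
  rw [Polynomial.mem_roots hp]
  simpa [p] using ht'

omit [DecidableEq V] in
/-- A hyperplane section has proportion exactly `1/q`. -/
lemma card_hyperplane (H : V → Prop) [DecidablePred H] (φ : V →ₗ[F] F) (c : F) (e : V)
    (hH : ∀ x (t : F), H x → H (x + t • e)) (he : φ e ≠ 0) :
    Fintype.card F * (univ.filter fun x => H x ∧ φ x = c).card = (univ.filter H).card := by
  rw [dc H (fun x => φ x = c) e hH, card_eq_sum_ones (univ.filter H)]
  refine sum_congr rfl fun x _ => ?_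
  rw [card_eq_one]
  refine ⟨(c - φ x) / φ e, ?_⟩
  ext t
  simp only [map_add, map_smul, smul_eq_mul, mem_filter, mem_univ, true_and, mem_singleton]
  constructor
  · intro h
    field_simp
    linear_combination h
  · intro h
    rw [h]
    field_simp
    ring

omit [DecidableEq V] in
/-- Upper bound for quadric sections. -/
lemma card_quadric_le (B : V →ₗ[F] V →ₗ[F] F) (hs : ∀ x y, B x y = B y x)
    (H : V → Prop) [DecidablePred H] (c : F) (e : V)
    (hH : ∀ x (t : F), H x → H (x + t • e)) (he : B e e ≠ 0) :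
    Fintype.card F * (univ.filter fun x => H x ∧ B x x = c).card ≤ 2 * (univ.filter H).card := by
  rw [dc H (fun x => B x x = c) e hH, card_eq_sum_ones (univ.filter H), mul_sum]
  refine sum_le_sum fun x _ => ?_
  have := card_quad_le (B e e) (2 * B x e) (B x x - c) (fun h => he h.1)
  refine le_trans (le_of_eq ?_) (le_trans this (by simp))
  congr 1
  ext t
  simp only [map_add, map_smul, smul_eq_mul, mem_filter, mem_univ, true_and, LinearMap.add_apply,
    LinearMap.smul_apply, hs e x]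
  constructor <;> intro h <;> linear_combination h

omit [DecidableEq V] in
/-- Lower bound for quadric sections containing a null vector. -/
lemma card_quadric_ge (h2 : (2 : F) ≠ 0) (B : V →ₗ[F] V →ₗ[F] F) (hs : ∀ x y, B x y = B y x)
    (H : V → Prop) [DecidablePred H] (c : F) (w e : V)
    (hH : ∀ x (t : F), H x → H (x + t • w)) (hw : B w w = 0)
    (hH' : ∀ x (t : F), H x → H (x + t • e)) (he : B w e ≠ 0) :
    (Fintype.card F - 1) * (univ.filter H).card ≤
      Fintype.card F * (Fintype.card F *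
        (univ.filter fun x => H x ∧ (B x x = c ∧ B w x ≠ 0)).card) := by
  rw [dc H (fun x => B x x = c ∧ B w x ≠ 0) w hH]
  have h1 := card_hyperplane H (B w) 0 e hH' he
  have h3 : (univ.filter fun x => H x ∧ B w x = 0).card
      + (univ.filter fun x => H x ∧ B w x ≠ 0).card = (univ.filter H).card := by
    rw [← filter_filter, ← filter_filter]
    exact card_filter_add_card_filter_not _
  have h4 : (univ.filter fun x => H x ∧ B w x ≠ 0).card ≤
      ∑ x ∈ univ.filter H, (univ.filter fun t : F =>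
        B (x + t • w) (x + t • w) = c ∧ B w (x + t • w) ≠ 0).card := by
    rw [← filter_filter, card_filter]
    refine sum_le_sum fun x _ => ?_
    split_ifs with hx
    · apply card_pos.mpr
      refine ⟨(c - B x x) / (2 * B w x), ?_⟩
      simp only [map_add, map_smul, smul_eq_mul, mem_filter, mem_univ, true_and,
        LinearMap.add_apply, LinearMap.smul_apply, hs x w, hw]
      refine ⟨?_, by simpa using hx⟩
      field_simp
      ring
    · exact Nat.zero_le _
  have hq : 1 ≤ Fintype.card F := Fintype.card_pos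
  calc (Fintype.card F - 1) * (univ.filter H).card
      = Fintype.card F * (univ.filter fun x => H x ∧ B w x ≠ 0).card := by
        obtain ⟨r, hr⟩ : ∃ r, Fintype.card F = r + 1 := ⟨Fintype.card F - 1, by omega⟩
        rw [hr] at h1 ⊢
        simp only [Nat.add_sub_cancel]
        nlinarith
    _ ≤ _ := Nat.mul_le_mul_left _ h4

end Counting

end Pool.Agent.MP_36ae60_an

end MrgPart0

-- ======== part 1: formerly Pool.Agent.MP_36ae60_an.Geometry
section MrgPart1

set_option autoImplicit false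
set_option linter.unusedSectionVars false

open Finset

namespace Pool.Agent.MP_36ae60_an

variable {F : Type} [Field F] [Fintype F] [DecidableEq F]
variable {V : Type} [AddCommGroup V] [Module F V] [Fintype V] [DecidableEq V]

open Classical in
/-- Number of elements of a submodule. -/
noncomputable def cnt (K : Submodule F V) : ℕ := (univ.filter fun x => x ∈ K).card

lemma cnt_top : cnt (⊤ : Submodule F V) = Fintype.card V := by
  simp [cnt]

lemma cnt_le_ker (K : Submodule F V) (φ : V →ₗ[F] F) :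
    cnt K ≤ Fintype.card F * cnt (K ⊓ LinearMap.ker φ) := by
  classical
  by_cases h : ∃ e ∈ K, φ e ≠ 0
  · obtain ⟨e, heK, he⟩ := h
    have := card_hyperplane (fun x => x ∈ K) φ 0 e
      (fun x t hx => K.add_mem hx (K.smul_mem t heK)) he
    unfold cnt
    refine le_of_eq ?_
    convert this.symm using 3
    ext x; simp
  · push Not at h
    have h1 : K ⊓ LinearMap.ker φ = K := by
      apply inf_eq_left.mpr
      intro x hx
      exact h x hx
    rw [h1]
    exact Nat.le_mul_of_pos_left _ Fintype.card_pos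

lemma exists_ne_zero_of_cnt (K : Submodule F V) (h : 1 < cnt K) : ∃ x ∈ K, x ≠ 0 := by
  classical
  unfold cnt at h
  obtain ⟨x, hx, hx0⟩ := exists_mem_ne h (0 : V)
  exact ⟨x, by simpa using hx, hx0⟩

lemma exists_null (hodd : Fintype.card F % 2 = 1) (B : V →ₗ[F] V →ₗ[F] F)
    (hs : ∀ x y, B x y = B y x) (K : Submodule F V) (hK : Fintype.card F ^ 3 ≤ cnt K) :
    ∃ w ∈ K, w ≠ 0 ∧ B w w = 0 := by
  have hq : 1 < Fintype.card F := Fintype.one_lt_card
  have hq0 : 0 < Fintype.card F := by omega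
  obtain ⟨e1, h1K, h10⟩ := exists_ne_zero_of_cnt K (lt_of_lt_of_le (Nat.one_lt_pow (by norm_num) hq) hK)
  by_cases a1 : B e1 e1 = 0
  · exact ⟨e1, h1K, h10, a1⟩
  have hK1 : Fintype.card F ^ 2 ≤ cnt (K ⊓ LinearMap.ker (B e1)) := by
    have := hK.trans (cnt_le_ker K (B e1))
    rw [pow_succ'] at this
    exact Nat.le_of_mul_le_mul_left this hq0
  obtain ⟨e2, h2K, h20⟩ := exists_ne_zero_of_cnt _
    (lt_of_lt_of_le (Nat.one_lt_pow (by norm_num) hq) hK1)
  by_cases a2 : B e2 e2 = 0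
  · exact ⟨e2, h2K.1, h20, a2⟩
  have hK2 : Fintype.card F ≤ cnt (K ⊓ LinearMap.ker (B e1) ⊓ LinearMap.ker (B e2)) := by
    have := hK1.trans (cnt_le_ker _ (B e2))
    rw [pow_two] at this
    exact Nat.le_of_mul_le_mul_left this hq0
  obtain ⟨e3, h3K, h30⟩ := exists_ne_zero_of_cnt _ (lt_of_lt_of_le hq hK2)
  by_cases a3 : B e3 e3 = 0
  · exact ⟨e3, h3K.1.1, h30, a3⟩
  have h12 : B e1 e2 = 0 := h2K.2
  have h13 : B e1 e3 = 0 := h3K.1.2
  have h23 : B e2 e3 = 0 := h3K.2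
  obtain ⟨x, y, hxy⟩ := FiniteField.exists_root_sum_quadratic
    (f := Polynomial.C (B e1 e1) * Polynomial.X ^ 2)
    (g := Polynomial.C (B e2 e2) * Polynomial.X ^ 2 + Polynomial.C (B e3 e3))
    (Polynomial.degree_C_mul_X_pow 2 a1)
    (by
      rw [Polynomial.degree_add_C]
      · exact Polynomial.degree_C_mul_X_pow 2 a2
      · rw [Polynomial.degree_C_mul_X_pow 2 a2]; norm_num) hodd
  simp only [Polynomial.eval_mul, Polynomial.eval_C, Polynomial.eval_pow, Polynomial.eval_X,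
    Polynomial.eval_add] at hxy
  refine ⟨x • e1 + y • e2 + e3, K.add_mem (K.add_mem (K.smul_mem _ h1K) (K.smul_mem _ h2K.1))
    h3K.1.1, ?_, ?_⟩
  · intro h0
    have := congrArg (fun z => B z e3) h0
    simp [h13, h23] at this
    exact a3 this
  · simp only [map_add, map_smul, smul_eq_mul, LinearMap.add_apply, LinearMap.smul_apply,
      hs e2 e1, hs e3 e1, hs e3 e2, h12, h13, h23]
    linear_combination hxy

lemma exists_dual (B : V →ₗ[F] V →ₗ[F] F) (hnd : ∀ x, (∀ y, B x y = 0) → x = 0)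
    (x : V) (hx : x ≠ 0) : ∃ y, B x y ≠ 0 := by
  by_contra h
  push Not at h
  exact hx (hnd x h)

lemma card_perp (B : V →ₗ[F] V →ₗ[F] F) (hnd : ∀ x, (∀ y, B x y = 0) → x = 0)
    (v : V) (hv : v ≠ 0) :
    Fintype.card F * (univ.filter fun x => B v x = 0).card = Fintype.card V := by
  obtain ⟨y, hy⟩ := exists_dual B hnd v hv
  have := card_hyperplane (fun _ : V => True) (B v) 0 y (fun _ _ _ => trivial) hy
  simpa using this

/-- Many nonzero null vectors are orthogonal to a given non-null vector. -/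
lemma card_null_perp_ge (hodd : Fintype.card F % 2 = 1) (h2 : (2 : F) ≠ 0)
    (B : V →ₗ[F] V →ₗ[F] F)
    (hs : ∀ x y, B x y = B y x) (hnd : ∀ x, (∀ y, B x y = 0) → x = 0)
    (hV : Fintype.card F ^ 4 ≤ Fintype.card V) (ξ : V) (hξ : B ξ ξ ≠ 0) :
    Fintype.card V ≤ 2 * Fintype.card F ^ 2 *
      (univ.filter fun w => (w ≠ 0 ∧ B w w = 0) ∧ B ξ w = 0).card := by
  have hq : 1 < Fintype.card F := Fintype.one_lt_card
  have hq0 : 0 < Fintype.card F := by omega
  have hξ0 : ξ ≠ 0 := by rintro rfl; simp at hξ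
  have hK : Fintype.card F ^ 3 ≤ cnt (⊤ ⊓ LinearMap.ker (B ξ)) := by
    have := (hV.trans cnt_top.symm.le).trans (cnt_le_ker ⊤ (B ξ))
    rw [pow_succ'] at this
    exact Nat.le_of_mul_le_mul_left this hq0
  obtain ⟨w, hwK, hw0, hw⟩ := exists_null hodd B hs _ hK
  have hwξ : B ξ w = 0 := hwK.2
  obtain ⟨y, hy⟩ := exists_dual B hnd w hw0
  have h1 := card_quadric_ge h2 B hs (fun x => B ξ x = 0) 0 w (y - (B ξ y / B ξ ξ) • ξ)
    (fun x t hx => by simp [hx, hwξ])
    hw
    (fun x t hx => by simp [hx, div_mul_cancel₀ _ hξ])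
    (by simpa [hs w ξ, hwξ] using hy)
  have h3 := card_perp B hnd ξ hξ0
  have h4 : (univ.filter fun x => B ξ x = 0 ∧ (B x x = 0 ∧ B w x ≠ 0)).card ≤
      (univ.filter fun w => (w ≠ 0 ∧ B w w = 0) ∧ B ξ w = 0).card := by
    apply card_le_card
    intro x hx
    simp only [mem_filter, mem_univ, true_and] at hx ⊢
    refine ⟨⟨?_, hx.2.1⟩, hx.1⟩
    rintro rfl
    simp at hx
  set N := (univ.filter fun w => (w ≠ 0 ∧ B w w = 0) ∧ B ξ w = 0).card
  set M := (univ.filter fun x => B ξ x = 0).card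
  set q := Fintype.card F
  obtain ⟨r, hr⟩ : ∃ r, q = r + 1 := ⟨q - 1, by omega⟩
  have h5 : r * M ≤ q * (q * N) := by
    have : q - 1 = r := by omega
    rw [this] at h1
    exact h1.trans (Nat.mul_le_mul_left _ (Nat.mul_le_mul_left _ h4))
  rw [← h3]
  have h6 : q ≤ 2 * r := by omega
  calc q * M ≤ 2 * r * M := Nat.mul_le_mul_right _ h6
    _ = 2 * (r * M) := by ring
    _ ≤ 2 * (q * (q * N)) := Nat.mul_le_mul_left _ h5
    _ = _ := by ring

lemma exists_nonnull_perp (h2 : (2 : F) ≠ 0) (B : V →ₗ[F] V →ₗ[F] F)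
    (hs : ∀ x y, B x y = B y x) (hnd : ∀ x, (∀ y, B x y = 0) → x = 0)
    (hV : Fintype.card F ^ 3 ≤ Fintype.card V) (v : V) (hv : v ≠ 0) :
    ∃ e, B v e = 0 ∧ B e e ≠ 0 := by
  have hq : 1 < Fintype.card F := Fintype.one_lt_card
  have hq0 : 0 < Fintype.card F := by omega
  obtain ⟨y, hy⟩ := exists_dual B hnd v hv
  have hK1 : Fintype.card F ^ 2 ≤ cnt (⊤ ⊓ LinearMap.ker (B v)) := by
    have := (hV.trans cnt_top.symm.le).trans (cnt_le_ker ⊤ (B v))
    rw [pow_succ'] at this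
    exact Nat.le_of_mul_le_mul_left this hq0
  have hK2 : Fintype.card F ≤ cnt (⊤ ⊓ LinearMap.ker (B v) ⊓ LinearMap.ker (B y)) := by
    have := hK1.trans (cnt_le_ker _ (B y))
    rw [pow_two] at this
    exact Nat.le_of_mul_le_mul_left this hq0
  obtain ⟨x, hxK, hx0⟩ := exists_ne_zero_of_cnt _ (lt_of_lt_of_le hq hK2)
  have hvx : B v x = 0 := hxK.1.2
  have hyx : B y x = 0 := hxK.2
  by_contra hcon
  push Not at hcon
  apply hx0
  apply hnd
  intro z
  have hz : B v (z - (B v z / B v y) • y) = 0 := by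
    simp [div_mul_cancel₀ _ hy]
  set z' := z - (B v z / B v y) • y with hz'
  have e1 := hcon x hvx
  have e2 := hcon z' hz
  have e3 := hcon (x + z') (by simp [hvx, hz])
  simp only [map_add, LinearMap.add_apply, e1, e2, hs z' x] at e3
  have e4 : B x z' = 0 := by
    have : 2 * B x z' = 0 := by linear_combination e3
    exact (mul_eq_zero.mp this).resolve_left h2
  have : z = z' + (B v z / B v y) • y := by simp [hz']
  rw [this]
  simp [e4, hs x y, hyx]

/-- Few null vectors are orthogonal to a given nonzero vector. -/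
lemma card_null_perp_le (h2 : (2 : F) ≠ 0) (B : V →ₗ[F] V →ₗ[F] F)
    (hs : ∀ x y, B x y = B y x) (hnd : ∀ x, (∀ y, B x y = 0) → x = 0)
    (hV : Fintype.card F ^ 3 ≤ Fintype.card V) (v : V) (hv : v ≠ 0) :
    Fintype.card F ^ 2 * (univ.filter fun w => (w ≠ 0 ∧ B w w = 0) ∧ B v w = 0).card
      ≤ 2 * Fintype.card V := by
  obtain ⟨e, he, he'⟩ := exists_nonnull_perp h2 B hs hnd hV v hv
  have h1 := card_quadric_le B hs (fun x => B v x = 0) 0 e (fun x t hx => by simp [hx, he]) he'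
  have h3 := card_perp B hnd v hv
  have h4 : (univ.filter fun w => (w ≠ 0 ∧ B w w = 0) ∧ B v w = 0).card ≤
      (univ.filter fun x => B v x = 0 ∧ B x x = 0).card := by
    apply card_le_card
    intro x hx
    simp only [mem_filter, mem_univ, true_and] at hx ⊢
    exact ⟨hx.2, hx.1.2⟩
  rw [← h3]
  calc Fintype.card F ^ 2 * (univ.filter fun w => (w ≠ 0 ∧ B w w = 0) ∧ B v w = 0).card
      ≤ Fintype.card F ^ 2 * (univ.filter fun x => B v x = 0 ∧ B x x = 0).card :=
        Nat.mul_le_mul_left _ h4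
    _ = Fintype.card F * (Fintype.card F * (univ.filter fun x => B v x = 0 ∧ B x x = 0).card) := by
        ring
    _ ≤ Fintype.card F * (2 * (univ.filter fun x => B v x = 0).card) := Nat.mul_le_mul_left _ h1
    _ = _ := by ring

lemma card_null_le (h2 : (2 : F) ≠ 0) (B : V →ₗ[F] V →ₗ[F] F)
    (hs : ∀ x y, B x y = B y x) (hnd : ∀ x, (∀ y, B x y = 0) → x = 0)
    (hV : Fintype.card F ^ 3 ≤ Fintype.card V) :
    Fintype.card F * (univ.filter fun w => w ≠ 0 ∧ B w w = 0).card ≤ 2 * Fintype.card V := by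
  have hq : 1 < Fintype.card F := Fintype.one_lt_card
  obtain ⟨v, -, hv⟩ := exists_ne_zero_of_cnt (⊤ : Submodule F V)
    (lt_of_lt_of_le (Nat.one_lt_pow (by norm_num) hq) (hV.trans cnt_top.symm.le))
  obtain ⟨e, -, he'⟩ := exists_nonnull_perp h2 B hs hnd hV v hv
  have h1 := card_quadric_le B hs (fun _ => True) 0 e (fun _ _ _ => trivial) he'
  simp only [true_and, filter_true, card_univ] at h1
  refine le_trans (Nat.mul_le_mul_left _ (card_le_card ?_)) h1
  intro x hx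
  simp only [mem_filter, mem_univ, true_and] at hx ⊢
  exact hx.2

/-- Lower bound for the size of a sphere. -/
lemma card_sphere_ge (hodd : Fintype.card F % 2 = 1) (h2 : (2 : F) ≠ 0) (B : V →ₗ[F] V →ₗ[F] F)
    (hs : ∀ x y, B x y = B y x) (hnd : ∀ x, (∀ y, B x y = 0) → x = 0)
    (hV : Fintype.card F ^ 3 ≤ Fintype.card V) (j : F) :
    Fintype.card V ≤ 2 * Fintype.card F * (univ.filter fun x => B x x = j).card := by
  have hq : 1 < Fintype.card F := Fintype.one_lt_card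
  obtain ⟨w, -, hw0, hw⟩ := exists_null hodd B hs ⊤ (hV.trans cnt_top.symm.le)
  obtain ⟨y, hy⟩ := exists_dual B hnd w hw0
  have h1 := card_quadric_ge h2 B hs (fun _ => True) j w y (fun _ _ _ => trivial) hw
    (fun _ _ _ => trivial) hy
  simp only [true_and, filter_true, card_univ] at h1
  have h4 : (univ.filter fun x => B x x = j ∧ B w x ≠ 0).card ≤
      (univ.filter fun x => B x x = j).card := by
    apply card_le_card
    intro x hx
    simp only [mem_filter, mem_univ, true_and] at hx ⊢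
    exact hx.1
  set N := (univ.filter fun x => B x x = j).card
  set M := Fintype.card V
  set q := Fintype.card F
  obtain ⟨r, hr⟩ : ∃ r, q = r + 1 := ⟨q - 1, by omega⟩
  have h5 : r * M ≤ q * (q * N) := by
    have : q - 1 = r := by omega
    rw [this] at h1
    exact h1.trans (Nat.mul_le_mul_left _ (Nat.mul_le_mul_left _ h4))
  have h6 : q ≤ 2 * r := by omega
  have h7 : q * M ≤ q * (2 * q * N) := by
    calc q * M ≤ 2 * r * M := Nat.mul_le_mul_right _ h6
      _ = 2 * (r * M) := by ring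
      _ ≤ 2 * (q * (q * N)) := Nat.mul_le_mul_left _ h5
      _ = _ := by ring
  exact Nat.le_of_mul_le_mul_left h7 (by omega)

/-- In a plane, the orthogonal of a nonzero vector is a line. -/
lemma perp_line (B : V →ₗ[F] V →ₗ[F] F) (hnd : ∀ x, (∀ y, B x y = 0) → x = 0)
    (hV : Fintype.card V = Fintype.card F ^ 2) (v : V) (hv : v ≠ 0) (e : V) (he : e ≠ 0)
    (hve : B v e = 0) (x : V) (hx : B v x = 0) : ∃ t : F, x = t • e := by
  have hq0 : 0 < Fintype.card F := Fintype.card_pos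
  have h3 := card_perp B hnd v hv
  rw [hV, pow_two] at h3
  have h4 : (univ.filter fun x => B v x = 0).card = Fintype.card F :=
    Nat.eq_of_mul_eq_mul_left hq0 h3
  have hinj : Function.Injective fun t : F => t • e := smul_left_injective F he
  have h5 : univ.image (fun t : F => t • e) = univ.filter fun x => B v x = 0 := by
    apply eq_of_subset_of_card_le
    · intro z hz
      obtain ⟨t, -, rfl⟩ := mem_image.mp hz
      simp [hve]
    · rw [h4, card_image_of_injective _ hinj, card_univ]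
  have : x ∈ univ.image (fun t : F => t • e) := by
    rw [h5]; simpa using hx
  obtain ⟨t, -, ht⟩ := mem_image.mp this
  exact ⟨t, ht.symm⟩

/-- A conic is a Sidon-type set. -/
lemma card_conic_diff (h2 : (2 : F) ≠ 0) (B : V →ₗ[F] V →ₗ[F] F)
    (hs : ∀ x y, B x y = B y x) (hnd : ∀ x, (∀ y, B x y = 0) → x = 0)
    (hV : Fintype.card V = Fintype.card F ^ 2) (j : F) (hj : j ≠ 0) (s : V) (hs0 : s ≠ 0) :
    (univ.filter fun c => B c c = j ∧ B (c - s) (c - s) = j).card ≤ 2 := by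
  have hq : 1 < Fintype.card F := Fintype.one_lt_card
  rcases (univ.filter fun c => B c c = j ∧ B (c - s) (c - s) = j).eq_empty_or_nonempty with h | h
  · rw [h]; simp
  obtain ⟨c0, hc0⟩ := h
  simp only [mem_filter, mem_univ, true_and] at hc0
  have hK : Fintype.card F ≤ cnt (⊤ ⊓ LinearMap.ker (B s)) := by
    have := (hV.symm.le.trans cnt_top.symm.le).trans (cnt_le_ker ⊤ (B s))
    rw [pow_two] at this
    exact Nat.le_of_mul_le_mul_left this (by omega)
  obtain ⟨e, heK, he0⟩ := exists_ne_zero_of_cnt _ (lt_of_lt_of_le hq hK)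
  have hse : B s e = 0 := heK.2
  have hne : ¬ (B e e = 0 ∧ 2 * B c0 e = 0 ∧ (0 : F) = 0) := by
    rintro ⟨h1, h3, -⟩
    have h4 : B e c0 = 0 := by
      rw [hs]; exact (mul_eq_zero.mp h3).resolve_left h2
    obtain ⟨t, ht⟩ := perp_line B hnd hV e he0 e he0 h1 c0 h4
    apply hj
    rw [← hc0.1, ht]
    simp [h1]
  refine le_trans ?_ (card_quad_le _ _ _ hne)
  refine le_trans (card_le_card ?_) (card_image_le (f := fun t : F => c0 + t • e))
  intro c hc
  simp only [mem_filter, mem_univ, true_and] at hc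
  have h5 : B s (c - c0) = 0 := by
    have e1 := hc.2
    have e2 := hc0.2
    simp only [map_sub, LinearMap.sub_apply, hs c s, hs c0 s, hc.1, hc0.1] at e1 e2 ⊢
    have : 2 * (B s c - B s c0) = 0 := by linear_combination e2 - e1
    exact (mul_eq_zero.mp this).resolve_left h2
  obtain ⟨t, ht⟩ := perp_line B hnd hV s hs0 e he0 hse _ h5
  have hc' : c = c0 + t • e := by rw [← ht]; simp
  refine mem_image.mpr ⟨t, ?_, hc'.symm⟩
  simp only [mem_filter, mem_univ, true_and]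
  have e1 := hc.1
  rw [hc'] at e1
  simp only [map_add, map_smul, smul_eq_mul, LinearMap.add_apply, LinearMap.smul_apply,
    hs e c0, hc0.1] at e1
  linear_combination e1

end Pool.Agent.MP_36ae60_an

end MrgPart1

-- ======== part 2: formerly Pool.Agent.MP_36ae60_an.Plane
section MrgPart2

set_option autoImplicit false
set_option linter.unusedSectionVars false

open Finset

namespace Pool.Agent.MP_36ae60_an

variable {F : Type} [Field F] [Fintype F] [DecidableEq F]
variable {V : Type} [AddCommGroup V] [Module F V] [Fintype V] [DecidableEq V]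

/-- The `L^4` extension estimate for a conic. -/
lemma conic_L4 (h2 : (2 : F) ≠ 0) (B : V →ₗ[F] V →ₗ[F] F)
    (hs : ∀ x y, B x y = B y x) (hnd : ∀ x, (∀ y, B x y = 0) → x = 0)
    (hV : Fintype.card V = Fintype.card F ^ 2) (χ : AddChar F ℂ) (hχ : χ ≠ 1)
    (j : F) (hj : j ≠ 0) (a : V → ℂ) (ha : ∀ c, B c c ≠ j → a c = 0) :
    ∑ x, (‖∑ c, a c * χ (B x c)‖ ^ 2) ^ 2
      ≤ 3 * (Fintype.card F : ℝ) ^ 2 * (∑ c, ‖a c‖ ^ 2) ^ 2 := by
  set r : V → ℂ := fun s => ∑ c, a (c - s) * (starRingEnd ℂ) (a c) with hr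
  have h1 : ∀ x, ‖∑ c, a c * χ (B x c)‖ ^ 2 = ‖ft B χ r x‖ := by
    intro x
    have : (∑ c, a c * χ (B x c)) * (starRingEnd ℂ) (∑ c, a c * χ (B x c)) = ft B χ r x := by
      unfold ft
      simp only [hr, map_sum, map_mul, sum_mul]
      rw [sum_comm (s := univ) (t := univ)
        (f := fun s c => a (c - s) * (starRingEnd ℂ) (a c) * χ (-(B s x)))]
      simp only [mul_sum]
      rw [sum_comm]
      refine sum_congr rfl fun c' _ => ?_
      symm
      apply Fintype.sum_equiv (Equiv.subLeft c')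
      intro s
      rw [← AddChar.map_neg_eq_conj]
      have : χ (-(B s x)) = χ (B x (c' - s)) * χ (-(B x c')) := by
        rw [← AddChar.map_add_eq_mul]
        congr 1
        simp only [map_sub, hs s x]; ring
      rw [this]
      simp only [Equiv.subLeft_apply]
      ring
    rw [← this, norm_mul, RCLike.norm_conj, sq]
  simp only [h1]
  rw [plancherel B hnd χ hχ r, hV]
  set A := ∑ c, ‖a c‖ ^ 2 with hA
  have hA0 : 0 ≤ A := sum_nonneg fun _ _ => sq_nonneg _
  have h3 : ∀ s, ‖r s‖ ^ 2 ≤ (if s = 0 then A ^ 2 else 0)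
      + 2 * ∑ c, ‖a (c - s)‖ ^ 2 * ‖a c‖ ^ 2 := by
    intro s
    have hnn : 0 ≤ ∑ c, ‖a (c - s)‖ ^ 2 * ‖a c‖ ^ 2 := sum_nonneg fun _ _ => by positivity
    split_ifs with h0
    · have : ‖r s‖ ≤ A := by
        simp only [hr, h0, sub_zero]
        refine (norm_sum_le _ _).trans (le_of_eq ?_)
        refine sum_congr rfl fun c _ => ?_
        rw [norm_mul, RCLike.norm_conj, sq]
      have := pow_le_pow_left₀ (norm_nonneg _) this 2
      linarith
    · set T := univ.filter fun c => B c c = j ∧ B (c - s) (c - s) = j with hT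
      have hT2 : (T.card : ℝ) ≤ 2 := by
        exact_mod_cast card_conic_diff h2 B hs hnd hV j hj s h0
      have e1 : ‖r s‖ ≤ ∑ c ∈ T, ‖a (c - s)‖ * ‖a c‖ := by
        have : r s = ∑ c ∈ T, a (c - s) * (starRingEnd ℂ) (a c) := by
          simp only [hr]
          symm
          apply sum_subset (subset_univ _)
          intro c _ hc
          simp only [hT, mem_filter, mem_univ, true_and, not_and_or] at hc
          rcases hc with hc | hc
          · simp [ha c hc]
          · simp [ha _ hc]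
        rw [this]
        refine (norm_sum_le _ _).trans (le_of_eq ?_)
        refine sum_congr rfl fun c _ => ?_
        rw [norm_mul, RCLike.norm_conj]
      have e2 := pow_le_pow_left₀ (norm_nonneg _) e1 2
      have e3 := sq_sum_le_card_mul_sum_sq (s := T) (f := fun c => ‖a (c - s)‖ * ‖a c‖)
      have e4 : ∑ c ∈ T, (‖a (c - s)‖ * ‖a c‖) ^ 2 ≤ ∑ c, ‖a (c - s)‖ ^ 2 * ‖a c‖ ^ 2 := by
        simp only [mul_pow]
        exact sum_le_sum_of_subset_of_nonneg (subset_univ _) fun _ _ _ => by positivity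
      have e5 : 0 ≤ ∑ c ∈ T, (‖a (c - s)‖ * ‖a c‖) ^ 2 := sum_nonneg fun _ _ => sq_nonneg _
      nlinarith
  have h4 : ∑ s, ‖r s‖ ^ 2 ≤ 3 * A ^ 2 := by
    refine (sum_le_sum fun s _ => h3 s).trans (le_of_eq ?_)
    rw [sum_add_distrib, sum_ite_eq', if_pos (mem_univ _), ← mul_sum, sum_comm]
    have : ∀ c : V, ∑ s, ‖a (c - s)‖ ^ 2 * ‖a c‖ ^ 2 = A * ‖a c‖ ^ 2 := by
      intro c
      rw [← sum_mul]
      congr 1
      exact Fintype.sum_equiv (Equiv.subLeft c) _ _ (fun s => by simp)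
    simp only [this]
    rw [← mul_sum]
    ring
  push_cast
  have : (0 : ℝ) ≤ (Fintype.card F : ℝ) ^ 2 := by positivity
  nlinarith

/-- The restriction estimate in the plane. -/
lemma base_case (h2 : (2 : F) ≠ 0) (B : V →ₗ[F] V →ₗ[F] F)
    (hs : ∀ x y, B x y = B y x) (hnd : ∀ x, (∀ y, B x y = 0) → x = 0)
    (hV : Fintype.card V = Fintype.card F ^ 2) (χ : AddChar F ℂ) (hχ : χ ≠ 1)
    (j : F) (hj : j ≠ 0) (g : V → ℂ) :
    ∑ ξ ∈ univ.filter (fun ξ => B ξ ξ = j), ‖ft B χ g ξ‖ ^ 2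
      ≤ 2 * (Fintype.card F : ℝ) * ((∑ x, ‖g x‖) * √(∑ x, ‖g x‖ ^ 2)) := by
  set a : V → ℂ := fun c => if B c c = j then ft B χ g c else 0 with ha
  set A := ∑ ξ ∈ univ.filter (fun ξ => B ξ ξ = j), ‖ft B χ g ξ‖ ^ 2 with hA
  have hA0 : 0 ≤ A := sum_nonneg fun _ _ => sq_nonneg _
  have hAa : ∑ c, ‖a c‖ ^ 2 = A := by
    rw [hA, sum_filter]
    refine sum_congr rfl fun c _ => ?_
    simp only [ha]
    split_ifs <;> simp
  set u : V → ℂ := fun x => ∑ c, a c * χ (B x c) with hu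
  have hL4 := conic_L4 h2 B hs hnd hV χ hχ j hj a (fun c hc => by simp [ha, hc])
  rw [hAa] at hL4
  have h1 : (A : ℂ) = ∑ x, g x * (starRingEnd ℂ) (u x) := by
    have e1 : (A : ℂ) = ∑ c, (starRingEnd ℂ) (a c) * ft B χ g c := by
      rw [← hAa]
      push_cast
      refine sum_congr rfl fun c _ => ?_
      simp only [ha]
      split_ifs
      · rw [mul_comm, Complex.mul_conj, Complex.normSq_eq_norm_sq]; push_cast; ring
      · simp
    rw [e1]
    unfold ft
    simp only [hu, map_sum, map_mul, mul_sum]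
    rw [sum_comm]
    refine sum_congr rfl fun x _ => sum_congr rfl fun c _ => ?_
    rw [← AddChar.map_neg_eq_conj]
    ring
  have h3 : A ≤ ∑ x, ‖g x‖ * ‖u x‖ := by
    have : A = ‖(A : ℂ)‖ := by
      rw [Complex.norm_real, Real.norm_of_nonneg hA0]
    rw [this, h1]
    refine (norm_sum_le _ _).trans (le_of_eq ?_)
    refine sum_congr rfl fun c _ => ?_
    rw [norm_mul, RCLike.norm_conj]
  set L1 := ∑ x, ‖g x‖ with hL1
  set L2 := ∑ x, ‖g x‖ ^ 2 with hL2
  have hL10 : 0 ≤ L1 := sum_nonneg fun _ _ => norm_nonneg _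
  have hL20 : 0 ≤ L2 := sum_nonneg fun _ _ => sq_nonneg _
  have h4 : (∑ x, ‖g x‖ * ‖u x‖) ^ 2 ≤ L1 * ∑ x, ‖g x‖ * ‖u x‖ ^ 2 := by
    apply sum_sq_le_sum_mul_sum_of_sq_le_mul
    · intro _ _; positivity
    · intro _ _; positivity
    · intro _ _; exact le_of_eq (by ring)
  have h5 : (∑ x, ‖g x‖ * ‖u x‖ ^ 2) ^ 2 ≤ L2 * ∑ x, (‖u x‖ ^ 2) ^ 2 :=
    sum_mul_sq_le_sq_mul_sq _ _ _
  set q : ℝ := (Fintype.card F : ℝ) with hq
  have hq0 : 0 ≤ q := by positivity
  have h6 : ∑ x, ‖g x‖ * ‖u x‖ ^ 2 ≤ 2 * q * √L2 * A := by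
    apply abs_le_of_sq_le_sq' _ (by positivity) |>.2
    have e : (2 * q * √L2 * A) ^ 2 = 4 * q ^ 2 * L2 * A ^ 2 := by
      rw [mul_pow, mul_pow, Real.sq_sqrt hL20]; ring
    rw [e]
    have e2 : L2 * ∑ x, (‖u x‖ ^ 2) ^ 2 ≤ L2 * (3 * q ^ 2 * A ^ 2) :=
      mul_le_mul_of_nonneg_left hL4 hL20
    have e3 : 0 ≤ q ^ 2 * L2 * A ^ 2 := by positivity
    nlinarith
  have h7 : A ^ 2 ≤ L1 * (2 * q * √L2 * A) :=
    (pow_le_pow_left₀ hA0 h3 2).trans (h4.trans (mul_le_mul_of_nonneg_left h6 hL10))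
  rcases hA0.eq_or_lt with h | h
  · rw [← h]; positivity
  · have : A * A ≤ (2 * q * (L1 * √L2)) * A := by nlinarith
    exact le_of_mul_le_mul_right this h

end Pool.Agent.MP_36ae60_an

end MrgPart2

-- ======== part 3: formerly Pool.Agent.MP_36ae60_an.Slice
section MrgPart3

set_option autoImplicit false
set_option linter.unusedSectionVars false

open Finset

namespace Pool.Agent.MP_36ae60_an

variable {F : Type} [Field F] [Fintype F] [DecidableEq F]
variable {V : Type} [AddCommGroup V] [Module F V] [Fintype V] [DecidableEq V]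

lemma exists_hyp (h2 : (2 : F) ≠ 0) (B : V →ₗ[F] V →ₗ[F] F)
    (hs : ∀ x y, B x y = B y x) (hnd : ∀ x, (∀ y, B x y = 0) → x = 0)
    (w : V) (hw0 : w ≠ 0) (hw : B w w = 0) : ∃ w', B w w' = 1 ∧ B w' w' = 0 := by
  obtain ⟨y, hy⟩ := exists_dual B hnd w hw0
  set y1 := (B w y)⁻¹ • y with hy1
  have h1 : B w y1 = 1 := by simp [hy1, inv_mul_cancel₀ hy]
  refine ⟨y1 - (B y1 y1 / 2) • w, by simp [h1, hw], ?_⟩
  simp only [map_sub, map_smul, smul_eq_mul, LinearMap.sub_apply, LinearMap.smul_apply,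
    hs y1 w, h1, hw]
  field_simp
  ring

/-- The orthogonal complement of a hyperbolic pair. -/
def compl (B : V →ₗ[F] V →ₗ[F] F) (w w' : V) : Submodule F V :=
  LinearMap.ker (B w) ⊓ LinearMap.ker (B w')

/-- Coordinates adapted to a hyperbolic pair. -/
def coords (B : V →ₗ[F] V →ₗ[F] F) (hs : ∀ x y, B x y = B y x) (w w' : V)
    (hw : B w w = 0) (hww : B w w' = 1) (hw' : B w' w' = 0) : compl B w w' × F × F ≃ V where
  toFun p := (p.1 : V) + p.2.1 • w + p.2.2 • w'
  invFun x := (⟨x - (B w' x) • w - (B w x) • w', by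
    constructor
    · simp [hw, hww]
    · simp [hw', hs w' w, hww]⟩, B w' x, B w x)
  left_inv := by
    rintro ⟨⟨u, hu1, hu2⟩, a, b⟩
    have h1 : B w u = 0 := hu1
    have h2 : B w' u = 0 := hu2
    simp only [map_add, map_smul, smul_eq_mul, h1, h2, hw, hww, hw', hs w' w]
    simp only [zero_add, mul_one, mul_zero, add_zero, Prod.mk.injEq, Subtype.mk.injEq, and_true]
    abel
  right_inv := by
    intro x
    dsimp only
    abel

lemma slice (h2 : (2 : F) ≠ 0) (B : V →ₗ[F] V →ₗ[F] F)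
    (hs : ∀ x y, B x y = B y x) (hnd : ∀ x, (∀ y, B x y = 0) → x = 0)
    (χ : AddChar F ℂ) (hχ : χ ≠ 1) (j : F) (K α β : ℝ) (hK : 0 ≤ K) (hα : 0 ≤ α) (hβ : 0 ≤ β)
    (IH : ∀ (U : Type) [AddCommGroup U] [Module F U] [Fintype U] [DecidableEq U]
      (B' : U →ₗ[F] U →ₗ[F] F), (∀ x y, B' x y = B' y x) → (∀ x, (∀ y, B' x y = 0) → x = 0) →
      Fintype.card F ^ 2 * Fintype.card U = Fintype.card V → ∀ h : U → ℂ,
      ∑ u ∈ univ.filter (fun u => B' u u = j), ‖ft B' χ h u‖ ^ 2 ≤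
        K * (√(∑ x, ‖h x‖ ^ 2 + α * (∑ x, ‖h x‖) ^ 2) * √(∑ x, ‖h x‖ ^ 2 + β * (∑ x, ‖h x‖) ^ 2)))
    (w : V) (hw0 : w ≠ 0) (hw : B w w = 0) (g : V → ℂ) :
    ∑ ξ ∈ univ.filter (fun ξ => B ξ ξ = j ∧ B ξ w = 0), ‖ft B χ g ξ‖ ^ 2 ≤
      Fintype.card F * K *
        (√((Fintype.card F / Fintype.card V) * ∑ ξ ∈ univ.filter (fun ξ => B ξ w = 0),
            ‖ft B χ g ξ‖ ^ 2
          + α * ∑ x, ∑ y, if B (x - y) w = 0 then ‖g x‖ * ‖g y‖ else 0) *
        √((Fintype.card F / Fintype.card V) * ∑ ξ ∈ univ.filter (fun ξ => B ξ w = 0),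
            ‖ft B χ g ξ‖ ^ 2
          + β * ∑ x, ∑ y, if B (x - y) w = 0 then ‖g x‖ * ‖g y‖ else 0)) := by
  classical
  obtain ⟨w', hww, hw'⟩ := exists_hyp h2 B hs hnd w hw0 hw
  set U := compl B w w' with hU
  let e : U × F × F ≃ V := coords B hs w w' hw hww hw'
  have he : ∀ (u : U) (a b : F), e (u, a, b) = (u : V) + a • w + b • w' := fun _ _ _ => rfl
  have hu1 : ∀ u : U, B w u = 0 := fun u => u.2.1
  have hu2 : ∀ u : U, B w' u = 0 := fun u => u.2.2
  have hu1' : ∀ u : U, B u w = 0 := fun u => by rw [hs]; exact hu1 u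
  have hu2' : ∀ u : U, B u w' = 0 := fun u => by rw [hs]; exact hu2 u
  let B' : U →ₗ[F] U →ₗ[F] F := B.compl₁₂ U.subtype U.subtype
  have hB' : ∀ u v : U, B' u v = B u v := fun _ _ => rfl
  have hs' : ∀ x y, B' x y = B' y x := fun x y => by rw [hB', hB', hs]
  have hnd' : ∀ x, (∀ y, B' x y = 0) → x = 0 := by
    intro x hx
    apply Subtype.ext
    apply hnd
    intro y
    obtain ⟨⟨u, a, b⟩, rfl⟩ := e.surjective y
    have := hx u
    rw [hB'] at this
    simp [he, this, hu1', hu2']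
  have hcard : Fintype.card F ^ 2 * Fintype.card U = Fintype.card V := by
    rw [← Fintype.card_congr e]
    simp only [Fintype.card_prod]
    ring
  have hBe : ∀ (u v : U) (a b c d : F), B (e (u, a, b)) (e (v, c, d)) = B' u v + a * d + b * c := by
    intro u v a b c d
    simp only [he, hB', map_add, map_smul, smul_eq_mul, LinearMap.add_apply, LinearMap.smul_apply,
      hu1, hu2, hu1', hu2', hw, hww, hw', hs w' w]
    ring
  have hBw : ∀ (u : U) (a b : F), B (e (u, a, b)) w = b := by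
    intro u a b
    simp only [he, map_add, map_smul, smul_eq_mul, LinearMap.add_apply, LinearMap.smul_apply,
      hu1', hw, hww, hs w' w]
    ring
  -- sums over V in coordinates
  have hsum : ∀ f : V → ℝ, ∑ x, f x = ∑ u : U, ∑ a : F, ∑ b : F, f (e (u, a, b)) := by
    intro f
    rw [← e.sum_comp, Fintype.sum_prod_type]
    simp only [Fintype.sum_prod_type]
  have hsumC : ∀ f : V → ℂ, ∑ x, f x = ∑ u : U, ∑ a : F, ∑ b : F, f (e (u, a, b)) := by
    intro f
    rw [← e.sum_comp, Fintype.sum_prod_type]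
    simp only [Fintype.sum_prod_type]
  let μ : F → U → ℂ := fun t u => ∑ a : F, g (e (u, a, t))
  have hft : ∀ (u : U) (a : F), ft B χ g (e (u, a, 0)) = ∑ t, ft B' χ (μ t) u * χ (-(t * a)) := by
    intro u a
    unfold ft
    rw [hsumC]
    simp only [μ, sum_mul]
    rw [sum_comm (s := univ) (t := univ) (f := fun (t : F) (v : U) =>
      ∑ c : F, g (e (v, c, t)) * χ (-(B' v u)) * χ (-(t * a)))]
    refine sum_congr rfl fun v _ => ?_
    rw [sum_comm]
    refine sum_congr rfl fun t _ => sum_congr rfl fun c _ => ?_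
    rw [hBe, mul_assoc, ← AddChar.map_add_eq_mul]
    congr 2
    ring
  have hline : ∀ u : U, ∑ a : F, ‖ft B χ g (e (u, a, 0))‖ ^ 2
      = Fintype.card F * ∑ t, ‖ft B' χ (μ t) u‖ ^ 2 := by
    intro u
    simp only [hft]
    exact plancherel_field χ hχ _
  have hsec : ∀ (P : F → Prop) [DecidablePred P],
      ∑ ξ ∈ univ.filter (fun ξ => P (B ξ ξ) ∧ B ξ w = 0), ‖ft B χ g ξ‖ ^ 2
      = Fintype.card F * ∑ t, ∑ u ∈ univ.filter (fun u => P (B' u u)), ‖ft B' χ (μ t) u‖ ^ 2 := by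
    intro P _
    rw [sum_filter, hsum, sum_comm (s := univ) (t := univ.filter (fun u => P (B' u u))), mul_sum,
      sum_filter]
    refine sum_congr rfl fun u _ => ?_
    rw [← hline]
    have : ∀ a : F, (∑ b : F, if P (B (e (u, a, b)) (e (u, a, b))) ∧ B (e (u, a, b)) w = 0 then
        ‖ft B χ g (e (u, a, b))‖ ^ 2 else 0)
        = if P (B' u u) then ‖ft B χ g (e (u, a, 0))‖ ^ 2 else 0 := by
      intro a
      rw [sum_eq_single (0 : F)]
      · simp only [hBe, hBw]
        simp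
      · intro b _ hb
        simp [hBw, hb]
      · simp
    simp only [this]
    split_ifs <;> simp
  have hq0 : (0 : ℝ) < Fintype.card F := by exact_mod_cast Fintype.card_pos
  have hU0 : (0 : ℝ) < Fintype.card U := by exact_mod_cast Fintype.card_pos
  -- the L2 norms
  have hA : ∑ t, ∑ u, ‖μ t u‖ ^ 2 = (Fintype.card F / Fintype.card V) *
      ∑ ξ ∈ univ.filter (fun ξ => B ξ w = 0), ‖ft B χ g ξ‖ ^ 2 := by
    have := hsec (fun _ => True)
    simp only [true_and, filter_true] at this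
    rw [this]
    simp only [plancherel B' hnd' χ hχ]
    rw [← mul_sum, ← hcard]
    push_cast
    field_simp
  -- the L1 norms
  have hB : ∑ t, (∑ u, ‖μ t u‖) ^ 2 ≤
      ∑ x, ∑ y, if B (x - y) w = 0 then ‖g x‖ * ‖g y‖ else 0 := by
    let m : F → ℝ := fun t => ∑ x, if B x w = t then ‖g x‖ else 0
    have h1 : ∀ t, ∑ u, ‖μ t u‖ ≤ m t := by
      intro t
      simp only [m]
      rw [hsum]
      refine sum_le_sum fun u _ => ?_
      refine (norm_sum_le _ _).trans (le_of_eq ?_)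
      refine sum_congr rfl fun a _ => ?_
      simp only [hBw]
      rw [sum_ite_eq']
      simp
    have h3 : ∑ t, m t ^ 2 = ∑ x, ∑ y, if B (x - y) w = 0 then ‖g x‖ * ‖g y‖ else 0 := by
      simp only [m, sq, sum_mul_sum]
      rw [sum_comm]
      refine sum_congr rfl fun x _ => ?_
      rw [sum_comm]
      refine sum_congr rfl fun y _ => ?_
      rw [sum_eq_single (B x w)]
      · simp only [if_true, map_sub, LinearMap.sub_apply, sub_eq_zero]
        by_cases h : B x w = B y w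
        · simp [h]
        · simp [h, Ne.symm h]
      · intro t _ ht
        simp [Ne.symm ht]
      · simp
    rw [← h3]
    exact sum_le_sum fun t _ =>
      pow_le_pow_left₀ (sum_nonneg fun _ _ => norm_nonneg _) (h1 t) 2
  rw [hsec (fun s => s = j), mul_assoc]
  refine mul_le_mul_of_nonneg_left ?_ hq0.le
  refine (sum_le_sum fun t _ => IH U B' hs' hnd' hcard (μ t)).trans ?_
  rw [← mul_sum]
  refine mul_le_mul_of_nonneg_left ?_ hK
  refine (Real.sum_sqrt_mul_sqrt_le _ (fun t => by positivity) (fun t => by positivity)).trans ?_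
  rw [sum_add_distrib, sum_add_distrib, ← mul_sum, ← mul_sum, hA]
  gcongr

end Pool.Agent.MP_36ae60_an

end MrgPart3

-- ======== part 4: formerly Pool.Agent.MP_36ae60_an.Induct
section MrgPart4

set_option autoImplicit false
set_option linter.unusedSectionVars false

open Finset

namespace Pool.Agent.MP_36ae60_an

variable {F : Type} [Field F] [Fintype F] [DecidableEq F]

section

variable {V : Type} [AddCommGroup V] [Module F V] [Fintype V] [DecidableEq V]

lemma sum_null_swap (B : V →ₗ[F] V →ₗ[F] F) (P : V → Prop) [DecidablePred P] (f : V → ℝ) :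
    ∑ w ∈ univ.filter (fun w => w ≠ 0 ∧ B w w = 0),
        ∑ ξ ∈ univ.filter (fun ξ => P ξ ∧ B ξ w = 0), f ξ
      = ∑ ξ ∈ univ.filter P,
        ((univ.filter fun w => (w ≠ 0 ∧ B w w = 0) ∧ B ξ w = 0).card : ℝ) * f ξ := by
  simp only [← filter_filter, sum_filter (s := univ.filter P)]
  rw [sum_comm]
  refine sum_congr rfl fun ξ _ => ?_
  rw [← sum_filter, sum_const, nsmul_eq_mul]

lemma step (hodd : Fintype.card F % 2 = 1) (h2 : (2 : F) ≠ 0) (B : V →ₗ[F] V →ₗ[F] F)
    (hs : ∀ x y, B x y = B y x) (hnd : ∀ x, (∀ y, B x y = 0) → x = 0)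
    (hV : Fintype.card F ^ 4 ≤ Fintype.card V)
    (χ : AddChar F ℂ) (hχ : χ ≠ 1) (j : F) (hj : j ≠ 0) (K α β α' β' : ℝ) (hK : 0 ≤ K)
    (hα : 0 ≤ α) (hβ : 0 ≤ β) (hα1 : α ≤ 1) (hβ1 : β ≤ 1)
    (hα2 : α / Fintype.card F ≤ α') (hβ2 : β / Fintype.card F ≤ β')
    (hα3 : (Fintype.card F : ℝ) / Fintype.card V ≤ α')
    (hβ3 : (Fintype.card F : ℝ) / Fintype.card V ≤ β')
    (IH : ∀ (U : Type) [AddCommGroup U] [Module F U] [Fintype U] [DecidableEq U]
      (B' : U →ₗ[F] U →ₗ[F] F), (∀ x y, B' x y = B' y x) → (∀ x, (∀ y, B' x y = 0) → x = 0) →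
      Fintype.card F ^ 2 * Fintype.card U = Fintype.card V → ∀ h : U → ℂ,
      ∑ u ∈ univ.filter (fun u => B' u u = j), ‖ft B' χ h u‖ ^ 2 ≤
        K * (√(∑ x, ‖h x‖ ^ 2 + α * (∑ x, ‖h x‖) ^ 2) * √(∑ x, ‖h x‖ ^ 2 + β * (∑ x, ‖h x‖) ^ 2)))
    (g : V → ℂ) :
    ∑ ξ ∈ univ.filter (fun ξ => B ξ ξ = j), ‖ft B χ g ξ‖ ^ 2 ≤
      8 * (Fintype.card F : ℝ) ^ 2 * K *
        (√(∑ x, ‖g x‖ ^ 2 + α' * (∑ x, ‖g x‖) ^ 2) *
          √(∑ x, ‖g x‖ ^ 2 + β' * (∑ x, ‖g x‖) ^ 2)) := by
  have hq1 : 1 < Fintype.card F := Fintype.one_lt_card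
  have hV3 : Fintype.card F ^ 3 ≤ Fintype.card V :=
    (Nat.pow_le_pow_right (by omega) (by norm_num)).trans hV
  set q : ℝ := (Fintype.card F : ℝ) with hq
  set M : ℝ := (Fintype.card V : ℝ) with hM
  have hq0 : 0 < q := by rw [hq]; exact_mod_cast Fintype.card_pos
  have hM0 : 0 < M := by rw [hM]; exact_mod_cast Fintype.card_pos
  set Z := univ.filter (fun w : V => w ≠ 0 ∧ B w w = 0) with hZ
  set N : V → ℝ := fun v =>
    ((univ.filter fun w => (w ≠ 0 ∧ B w w = 0) ∧ B v w = 0).card : ℝ) with hN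
  have hN1 : ∀ ξ, B ξ ξ = j → M ≤ 2 * q ^ 2 * N ξ := by
    intro ξ hξ
    have := card_null_perp_ge hodd h2 B hs hnd hV ξ (hξ ▸ hj)
    simp only [hN, hq, hM]
    exact_mod_cast this
  have hN2 : ∀ v, N v ≤ (if v = 0 then 2 * M / q else 0) + 2 * M / q ^ 2 := by
    intro v
    split_ifs with hv
    · have h1 := card_null_le h2 B hs hnd hV3
      have h3 : q * N v ≤ 2 * M := by
        simp only [hN, hq, hM, hv, map_zero, LinearMap.zero_apply, and_true]
        exact_mod_cast h1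
      have h4 : N v ≤ 2 * M / q := by
        rw [le_div_iff₀ hq0]; linarith
      have : 0 ≤ 2 * M / q ^ 2 := by positivity
      linarith
    · have h1 := card_null_perp_le h2 B hs hnd hV3 v hv
      have h3 : q ^ 2 * N v ≤ 2 * M := by
        simp only [hN, hq, hM]
        exact_mod_cast h1
      rw [zero_add, le_div_iff₀ (by positivity)]; linarith
  set a := ∑ x, ‖g x‖ ^ 2 with ha
  set L := ∑ x, ‖g x‖ with hL
  have ha0 : 0 ≤ a := sum_nonneg fun _ _ => sq_nonneg _
  have hL0 : 0 ≤ L := sum_nonneg fun _ _ => norm_nonneg _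
  set 𝒜 : V → ℝ := fun w => (q / M) * ∑ ξ ∈ univ.filter (fun ξ => B ξ w = 0), ‖ft B χ g ξ‖ ^ 2
    with h𝒜
  set ℬ : V → ℝ := fun w => ∑ x, ∑ y, if B (x - y) w = 0 then ‖g x‖ * ‖g y‖ else 0 with hℬ
  have h𝒜0 : ∀ w, 0 ≤ 𝒜 w := fun w => by
    simp only [h𝒜]; positivity
  have hℬ0 : ∀ w, 0 ≤ ℬ w := fun w =>
    sum_nonneg fun _ _ => sum_nonneg fun _ _ => by split_ifs <;> positivity
  have hA : ∑ w ∈ Z, 𝒜 w ≤ 2 * L ^ 2 + 2 * M / q * a := by
    simp only [h𝒜]
    rw [← mul_sum]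
    have h1 := sum_null_swap B (fun _ => True) (fun ξ => ‖ft B χ g ξ‖ ^ 2)
    simp only [true_and, filter_true] at h1
    rw [h1]
    have h3 : ∑ ξ, N ξ * ‖ft B χ g ξ‖ ^ 2 ≤ 2 * M / q * L ^ 2 + 2 * M / q ^ 2 * (M * a) := by
      refine (sum_le_sum fun ξ _ => mul_le_mul_of_nonneg_right (hN2 ξ) (sq_nonneg _)).trans ?_
      simp only [add_mul, sum_add_distrib, ite_mul, zero_mul]
      rw [sum_ite_eq', if_pos (mem_univ _), ← mul_sum, plancherel B hnd χ hχ]
      have := pow_le_pow_left₀ (norm_nonneg _) (norm_ft_le B χ g 0) 2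
      gcongr
    refine (mul_le_mul_of_nonneg_left h3 (by positivity)).trans (le_of_eq ?_)
    field_simp
  have hB : ∑ w ∈ Z, ℬ w ≤ 2 * M / q * a + 2 * M / q ^ 2 * L ^ 2 := by
    simp only [hℬ]
    have h1 : ∑ w ∈ Z, ∑ x, ∑ y, (if B (x - y) w = 0 then ‖g x‖ * ‖g y‖ else 0)
        = ∑ x, ∑ y, N (x - y) * (‖g x‖ * ‖g y‖) := by
      rw [sum_comm]
      refine sum_congr rfl fun x _ => ?_
      rw [sum_comm]
      refine sum_congr rfl fun y _ => ?_
      rw [← sum_filter, sum_const, nsmul_eq_mul, hZ, filter_filter]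
    rw [h1]
    refine (sum_le_sum fun x _ => sum_le_sum fun y _ =>
      mul_le_mul_of_nonneg_right (hN2 (x - y)) (by positivity)).trans (le_of_eq ?_)
    simp only [add_mul, sum_add_distrib, ite_mul, zero_mul, sub_eq_zero]
    congr 1
    · rw [ha, mul_sum]
      refine sum_congr rfl fun x _ => ?_
      rw [sum_ite_eq, if_pos (mem_univ _), sq]
    · rw [hL, sq (∑ x, ‖g x‖), sum_mul_sum, mul_sum]
      refine sum_congr rfl fun x _ => ?_
      rw [mul_sum]
  have key : ∀ γ γ' : ℝ, 0 ≤ γ → γ ≤ 1 → γ / q ≤ γ' → q / M ≤ γ' →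
      ∑ w ∈ Z, (𝒜 w + γ * ℬ w) ≤ 4 * M / q * (a + γ' * L ^ 2) := by
    intro γ γ' h0 h1 h3 h4
    rw [sum_add_distrib, ← mul_sum Z ℬ γ]
    have e1 := mul_le_mul_of_nonneg_left hB h0
    have e2 : 2 * L ^ 2 + 2 * M / q * a + γ * (2 * M / q * a + 2 * M / q ^ 2 * L ^ 2)
        = 2 * M / q * ((1 + γ) * a + (q / M + γ / q) * L ^ 2) := by
      field_simp
      ring
    have e3 : (1 + γ) * a + (q / M + γ / q) * L ^ 2 ≤ 2 * (a + γ' * L ^ 2) := by
      have : 0 ≤ L ^ 2 := sq_nonneg _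
      nlinarith
    have e4 : 2 * M / q * ((1 + γ) * a + (q / M + γ / q) * L ^ 2)
        ≤ 2 * M / q * (2 * (a + γ' * L ^ 2)) := mul_le_mul_of_nonneg_left e3 (by positivity)
    have e5 : 2 * M / q * (2 * (a + γ' * L ^ 2)) = 4 * M / q * (a + γ' * L ^ 2) := by ring
    linarith
  have hα'0 : 0 ≤ α' := le_trans (by positivity) hα3
  have hβ'0 : 0 ≤ β' := le_trans (by positivity) hβ3
  have main : M * ∑ ξ ∈ univ.filter (fun ξ => B ξ ξ = j), ‖ft B χ g ξ‖ ^ 2 ≤
      M * (8 * q ^ 2 * K * (√(a + α' * L ^ 2) * √(a + β' * L ^ 2))) := by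
    calc M * ∑ ξ ∈ univ.filter (fun ξ => B ξ ξ = j), ‖ft B χ g ξ‖ ^ 2
        ≤ 2 * q ^ 2 * ∑ ξ ∈ univ.filter (fun ξ => B ξ ξ = j), N ξ * ‖ft B χ g ξ‖ ^ 2 := by
          rw [mul_sum, mul_sum]
          refine sum_le_sum fun ξ hξ => ?_
          rw [← mul_assoc]
          exact mul_le_mul_of_nonneg_right (hN1 ξ (by simpa using hξ)) (sq_nonneg _)
      _ = 2 * q ^ 2 * ∑ w ∈ Z, ∑ ξ ∈ univ.filter (fun ξ => B ξ ξ = j ∧ B ξ w = 0),
            ‖ft B χ g ξ‖ ^ 2 := by
          rw [sum_null_swap B (fun ξ => B ξ ξ = j)]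
      _ ≤ 2 * q ^ 2 * ∑ w ∈ Z, q * K * (√(𝒜 w + α * ℬ w) * √(𝒜 w + β * ℬ w)) := by
          refine mul_le_mul_of_nonneg_left (sum_le_sum fun w hw => ?_) (by positivity)
          have hw' : w ≠ 0 ∧ B w w = 0 := by simpa [hZ] using hw
          exact slice h2 B hs hnd χ hχ j K α β hK hα hβ IH w hw'.1 hw'.2 g
      _ ≤ 2 * q ^ 2 * (q * K * (√(4 * M / q * (a + α' * L ^ 2)) *
            √(4 * M / q * (a + β' * L ^ 2)))) := by
          rw [← mul_sum]
          refine mul_le_mul_of_nonneg_left (mul_le_mul_of_nonneg_left ?_ (by positivity))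
            (by positivity)
          refine (Real.sum_sqrt_mul_sqrt_le _
            (fun w => add_nonneg (h𝒜0 w) (mul_nonneg hα (hℬ0 w)))
            (fun w => add_nonneg (h𝒜0 w) (mul_nonneg hβ (hℬ0 w)))).trans ?_
          have k1 := key α α' hα hα1 hα2 hα3
          have k2 := key β β' hβ hβ1 hβ2 hβ3
          gcongr
      _ = _ := by
          rw [Real.sqrt_mul (by positivity), Real.sqrt_mul (by positivity : 0 ≤ 4 * M / q)]
          have e : √(4 * M / q) * √(4 * M / q) = 4 * M / q := Real.mul_self_sqrt (by positivity)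
          have e2 : √(4 * M / q) * √(a + α' * L ^ 2) * (√(4 * M / q) * √(a + β' * L ^ 2))
              = (√(4 * M / q) * √(4 * M / q)) * (√(a + α' * L ^ 2) * √(a + β' * L ^ 2)) := by ring
          rw [e2, e]
          field_simp
          ring
  exact le_of_mul_le_mul_left main hM0

end

/-- The main inequality, by induction on half the dimension. -/
theorem main_ineq (hodd : Fintype.card F % 2 = 1) (h2 : (2 : F) ≠ 0)
    (χ : AddChar F ℂ) (hχ : χ ≠ 1) (j : F) (hj : j ≠ 0) (n : ℕ) :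
    ∀ (V : Type) [AddCommGroup V] [Module F V] [Fintype V] [DecidableEq V]
      (B : V →ₗ[F] V →ₗ[F] F), (∀ x y, B x y = B y x) → (∀ x, (∀ y, B x y = 0) → x = 0) →
      Fintype.card V = Fintype.card F ^ (2 * n + 2) → ∀ g : V → ℂ,
      ∑ ξ ∈ univ.filter (fun ξ => B ξ ξ = j), ‖ft B χ g ξ‖ ^ 2 ≤
        (2 * 8 ^ n * (Fintype.card F : ℝ) ^ (2 * n + 1)) *
          (√(∑ x, ‖g x‖ ^ 2 + ((Fintype.card F : ℝ) ^ n)⁻¹ * (∑ x, ‖g x‖) ^ 2) *
            √(∑ x, ‖g x‖ ^ 2 + ((Fintype.card F : ℝ) ^ (n + 2))⁻¹ * (∑ x, ‖g x‖) ^ 2)) := by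
  have hq1 : (1 : ℝ) ≤ Fintype.card F := by exact_mod_cast Fintype.card_pos
  have hq0 : (0 : ℝ) < Fintype.card F := by linarith
  induction n with
  | zero =>
    intro V _ _ _ _ B hs hnd hV g
    refine (base_case h2 B hs hnd (by simpa using hV) χ hχ j hj g).trans ?_
    have ha0 : 0 ≤ ∑ x, ‖g x‖ ^ 2 := sum_nonneg fun _ _ => sq_nonneg _
    have hL0 : 0 ≤ ∑ x, ‖g x‖ := sum_nonneg fun _ _ => norm_nonneg _
    simp only [pow_zero, mul_one, mul_zero, zero_add, pow_one, inv_one, one_mul]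
    refine mul_le_mul_of_nonneg_left ?_ (by positivity)
    apply mul_le_mul _ _ (Real.sqrt_nonneg _) (Real.sqrt_nonneg _)
    · apply Real.le_sqrt_of_sq_le
      linarith
    · apply Real.sqrt_le_sqrt
      have : 0 ≤ ((Fintype.card F : ℝ) ^ 2)⁻¹ * (∑ x, ‖g x‖) ^ 2 := by positivity
      linarith
  | succ n ih =>
    intro V _ _ _ _ B hs hnd hV g
    have hV' : (Fintype.card V : ℝ) = (Fintype.card F : ℝ) ^ (2 * (n + 1) + 2) := by
      exact_mod_cast hV
    have hpow : ∀ k, k ≤ 2 * n + 3 →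
        (Fintype.card F : ℝ) / Fintype.card V ≤ ((Fintype.card F : ℝ) ^ k)⁻¹ := by
      intro k hk
      have : (Fintype.card F : ℝ) / Fintype.card V = ((Fintype.card F : ℝ) ^ (2 * n + 3))⁻¹ := by
        rw [hV']; field_simp; ring
      rw [this]
      exact inv_anti₀ (by positivity) (pow_le_pow_right₀ hq1 hk)
    have := step hodd h2 B hs hnd
      (by rw [hV]; exact Nat.pow_le_pow_right Fintype.card_pos (by omega)) χ hχ j hj
      (2 * 8 ^ n * (Fintype.card F : ℝ) ^ (2 * n + 1)) ((Fintype.card F : ℝ) ^ n)⁻¹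
      ((Fintype.card F : ℝ) ^ (n + 2))⁻¹ ((Fintype.card F : ℝ) ^ (n + 1))⁻¹
      ((Fintype.card F : ℝ) ^ (n + 1 + 2))⁻¹ (by positivity) (by positivity) (by positivity)
      (inv_le_one_of_one_le₀ (one_le_pow₀ hq1)) (inv_le_one_of_one_le₀ (one_le_pow₀ hq1))
      (le_of_eq (by field_simp; ring)) (le_of_eq (by field_simp; ring))
      (hpow _ (by omega)) (hpow _ (by omega))
      (by
        intro U _ _ _ _ B' hs' hnd' hU h
        apply ih U B' hs' hnd'
        rw [hV] at hU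
        have e : Fintype.card F ^ (2 * (n + 1) + 2)
            = Fintype.card F ^ 2 * Fintype.card F ^ (2 * n + 2) := by ring
        rw [e] at hU
        exact Nat.eq_of_mul_eq_mul_left (pow_pos Fintype.card_pos 2) hU) g
    refine this.trans (le_of_eq ?_)
    ring

end Pool.Agent.MP_36ae60_an

end MrgPart4

-- ======== part 5: formerly Pool.Agent.MP_36ae60_an.Dyadic
section MrgPart5

set_option autoImplicit false

open Finset

namespace Pool.Agent.MP_36ae60_an

lemma geom_bound (K : ℕ) : ∑ k ∈ range (K + 1), ((3 / 4 : ℝ) ^ k + (3 / 4 : ℝ) ^ (K - k)) ≤ 8 := by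
  have h1 : ∑ k ∈ range (K + 1), (3 / 4 : ℝ) ^ k ≤ 4 := by
    rw [geom_sum_eq (by norm_num)]
    have : (0 : ℝ) ≤ (3 / 4 : ℝ) ^ (K + 1) := by positivity
    rw [div_le_iff_of_neg (by norm_num)]
    linarith
  have h2 : ∑ k ∈ range (K + 1), (3 / 4 : ℝ) ^ (K - k) = ∑ k ∈ range (K + 1), (3 / 4 : ℝ) ^ k := by
    have := sum_range_reflect (fun k => (3 / 4 : ℝ) ^ k) (K + 1)
    simpa using this
  rw [sum_add_distrib, h2]
  linarith

lemma level_bound (n k K : ℕ) (hn : 1 ≤ n) (hk : k ≤ K) (q a L : ℝ) (hq : 4 ^ K ≤ q)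
    (ha0 : 0 ≤ a) (hL0 : 0 ≤ L) (ha : a ≤ (1 / 4) ^ k) (hL : L ≤ 2 ^ ((k + 1) * (n + 1))) :
    √(a + (q ^ n)⁻¹ * L ^ 2) * √(a + (q ^ (n + 2))⁻¹ * L ^ 2)
      ≤ (1 + 4 ^ (n + 1)) * ((3 / 4 : ℝ) ^ k + (3 / 4 : ℝ) ^ (K - k)) ^ 2 := by
  obtain ⟨m, rfl⟩ := Nat.exists_eq_add_of_le hk
  simp only [Nat.add_sub_cancel_left]
  have hq0 : 0 < q := lt_of_lt_of_le (by positivity) hq
  set c : ℝ := 4 ^ (n + 1) with hc
  have hc0 : 0 < c := by positivity
  set x : ℝ := 4 ^ k with hx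
  set y : ℝ := 4 ^ m with hy
  have hx1 : 1 ≤ x := one_le_pow₀ (by norm_num)
  have hy1 : 1 ≤ y := one_le_pow₀ (by norm_num)
  have hxy : x * y ≤ q := by rw [hx, hy, ← pow_add]; exact hq
  have hxq : x ≤ q := le_trans (le_mul_of_one_le_right (by linarith) hy1) hxy
  have hL2 : L ^ 2 ≤ c * x ^ (n + 1) := by
    refine (pow_le_pow_left₀ hL0 hL 2).trans (le_of_eq ?_)
    rw [hc, hx, ← pow_mul, ← pow_mul, ← pow_add, show (4 : ℝ) = 2 ^ 2 by norm_num, ← pow_mul]
    congr 1
    ring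
  have ha' : a ≤ x⁻¹ := by rw [hx, ← inv_pow]; simpa using ha
  have h1 : (q ^ (n + 2))⁻¹ * L ^ 2 ≤ c * x⁻¹ := by
    have e1 : (q ^ (n + 2))⁻¹ ≤ (x ^ (n + 2))⁻¹ :=
      inv_anti₀ (by positivity) (pow_le_pow_left₀ (by linarith) hxq _)
    calc (q ^ (n + 2))⁻¹ * L ^ 2 ≤ (x ^ (n + 2))⁻¹ * (c * x ^ (n + 1)) := by gcongr
      _ = c * x⁻¹ := by field_simp; ring
  have h2 : (q ^ n)⁻¹ * L ^ 2 ≤ c * x * y⁻¹ := by
    have e1 : (q ^ n)⁻¹ ≤ (x ^ n * y)⁻¹ := by
      apply inv_anti₀ (by positivity)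
      calc x ^ n * y ≤ x ^ n * y ^ n := by
            gcongr
            exact le_self_pow₀ hy1 (by omega)
        _ = (x * y) ^ n := by rw [mul_pow]
        _ ≤ q ^ n := pow_le_pow_left₀ (by positivity) hxy _
    calc (q ^ n)⁻¹ * L ^ 2 ≤ (x ^ n * y)⁻¹ * (c * x ^ (n + 1)) := by gcongr
      _ = c * x * y⁻¹ := by field_simp; ring
  rw [← Real.sqrt_mul (by positivity)]
  apply Real.sqrt_le_iff.mpr
  refine ⟨by positivity, ?_⟩
  set s : ℝ := (3 / 4 : ℝ) ^ k with hs
  set t : ℝ := (3 / 4 : ℝ) ^ m with ht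
  have hs0 : 0 ≤ s := by positivity
  have ht0 : 0 ≤ t := by positivity
  have hs4 : x⁻¹ * x⁻¹ ≤ s ^ 4 := by
    rw [hs, hx, ← pow_mul, mul_comm k 4, pow_mul, ← inv_pow, ← mul_pow]
    exact pow_le_pow_left₀ (by norm_num) (by norm_num) _
  have ht4 : y⁻¹ ≤ t ^ 4 := by
    rw [ht, hy, ← pow_mul, mul_comm m 4, pow_mul, ← inv_pow]
    exact pow_le_pow_left₀ (by norm_num) (by norm_num) _
  have hst : s ^ 4 + t ^ 4 ≤ (s + t) ^ 4 := pow_add_pow_le hs0 ht0 (by norm_num)
  have hxi : 0 < x⁻¹ := by positivity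
  have hyi : 0 < y⁻¹ := by positivity
  calc (a + (q ^ n)⁻¹ * L ^ 2) * (a + (q ^ (n + 2))⁻¹ * L ^ 2)
      ≤ (x⁻¹ + c * x * y⁻¹) * (x⁻¹ + c * x⁻¹) := by gcongr
    _ = (1 + c) * (x⁻¹ * x⁻¹ + c * y⁻¹) := by field_simp
    _ ≤ (1 + c) * ((1 + c) * (s ^ 4 + t ^ 4)) := by
        refine mul_le_mul_of_nonneg_left ?_ (by positivity)
        have : 0 ≤ s ^ 4 := by positivity
        have : 0 ≤ t ^ 4 := by positivity
        nlinarith
    _ ≤ (1 + c) * ((1 + c) * (s + t) ^ 4) := by gcongr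
    _ = _ := by ring

lemma dyadic {X : Type} [Fintype X] (ρ : (X → ℂ) → ℝ)
    (hadd : ∀ f g, ρ (f + g) ≤ ρ f + ρ g) (n : ℕ) (hn : 1 ≤ n) (q C1 C2 : ℝ) (hq : 1 ≤ q)
    (hC1 : 0 ≤ C1) (hC2 : 0 ≤ C2)
    (hB : ∀ g, ρ g ^ 2 ≤ C1 * q * ∑ x, ‖g x‖ ^ 2)
    (hA : ∀ g, ρ g ^ 2 ≤ C2 * (√(∑ x, ‖g x‖ ^ 2 + (q ^ n)⁻¹ * (∑ x, ‖g x‖) ^ 2) *
      √(∑ x, ‖g x‖ ^ 2 + (q ^ (n + 2))⁻¹ * (∑ x, ‖g x‖) ^ 2)))
    (g : X → ℂ) (h : X → ℝ) (h0 : ∀ x, 0 ≤ h x) (hg : ∀ x, ‖g x‖ = h x ^ (n + 3))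
    (h1 : ∑ x, h x ^ (2 * n + 4) ≤ 1) :
    ρ g ≤ 8 * √(C2 * (1 + 4 ^ (n + 1))) + √C1 := by
  classical
  obtain ⟨K, hK1, hK2⟩ := exists_nat_pow_near hq (by norm_num : (1 : ℝ) < 4)
  let tail : ℕ → X → ℂ := fun k x => if h x ≤ (1 / 2) ^ k then g x else 0
  let lev : ℕ → X → ℂ := fun k x =>
    if (1 / 2) ^ (k + 1) < h x ∧ h x ≤ (1 / 2) ^ k then g x else 0
  have hle1 : ∀ x, h x ≤ 1 := by
    intro x
    have : h x ^ (2 * n + 4) ≤ 1 :=
      le_trans (single_le_sum (f := fun x => h x ^ (2 * n + 4))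
        (fun x _ => pow_nonneg (h0 x) _) (mem_univ x)) h1
    exact (pow_le_one_iff_of_nonneg (h0 x) (by omega)).mp this
  have ht0 : tail 0 = g := by
    funext x
    simp [tail, hle1 x]
  have hts : ∀ k, tail k = lev k + tail (k + 1) := by
    intro k
    funext x
    simp only [tail, lev, Pi.add_apply]
    have hlt : ((1 / 2 : ℝ)) ^ (k + 1) ≤ (1 / 2) ^ k :=
      pow_le_pow_of_le_one (by norm_num) (by norm_num) (by omega)
    by_cases a1 : h x ≤ (1 / 2) ^ (k + 1)
    · have a2 : h x ≤ (1 / 2) ^ k := a1.trans hlt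
      have a3 : ¬ ((1 / 2) ^ (k + 1) < h x) := not_lt.mpr a1
      rw [if_pos a2, if_neg (fun hh => a3 hh.1), if_pos a1, zero_add]
    · by_cases a2 : h x ≤ (1 / 2) ^ k
      · rw [if_pos a2, if_pos ⟨not_le.mp a1, a2⟩, if_neg a1, add_zero]
      · rw [if_neg a2, if_neg (fun hh => a2 hh.2), if_neg a1, add_zero]
  have hsum : ∀ m, ρ g ≤ ∑ k ∈ range m, ρ (lev k) + ρ (tail m) := by
    intro m
    induction m with
    | zero => simp [ht0]
    | succ m ih =>
      rw [sum_range_succ]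
      have := hadd (lev m) (tail (m + 1))
      rw [← hts] at this
      linarith
  have hsq : ∀ (k : ℕ) (f : X → ℂ), (∀ x, f x = 0 ∨ (f x = g x ∧ h x ≤ (1 / 2) ^ k)) →
      ∑ x, ‖f x‖ ^ 2 ≤ (1 / 4) ^ k := by
    intro k f hf
    calc ∑ x, ‖f x‖ ^ 2 ≤ ∑ x, (1 / 4) ^ k * h x ^ (2 * n + 4) := by
          refine sum_le_sum fun x _ => ?_
          rcases hf x with e | ⟨e, e'⟩
          · rw [e]; simp only [norm_zero]
            have := h0 x
            have : (0 : ℝ) ≤ (1 / 4) ^ k * h x ^ (2 * n + 4) := by positivity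
            simpa using this
          · rw [e, hg]
            have e2 : h x ^ 2 ≤ (1 / 4) ^ k := by
              refine (pow_le_pow_left₀ (h0 x) e' 2).trans (le_of_eq ?_)
              rw [← pow_mul, mul_comm, pow_mul]; norm_num
            calc (h x ^ (n + 3)) ^ 2 = h x ^ 2 * h x ^ (2 * n + 4) := by ring
              _ ≤ _ := mul_le_mul_of_nonneg_right e2 (pow_nonneg (h0 x) _)
      _ = (1 / 4) ^ k * ∑ x, h x ^ (2 * n + 4) := by rw [mul_sum]
      _ ≤ (1 / 4) ^ k * 1 := by gcongr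
      _ = _ := mul_one _
  have htail : ρ (tail (K + 1)) ≤ √C1 := by
    apply Real.le_sqrt_of_sq_le
    refine (hB _).trans ?_
    have e1 := hsq (K + 1) (tail (K + 1)) (fun x => by
      simp only [tail]
      split_ifs with hx
      · exact Or.inr ⟨rfl, hx⟩
      · exact Or.inl rfl)
    have e2 : q * (1 / 4) ^ (K + 1) ≤ 1 := by
      rw [one_div, inv_pow, ← div_eq_mul_inv, div_le_one (by positivity)]
      exact hK2.le
    calc C1 * q * ∑ x, ‖tail (K + 1) x‖ ^ 2 ≤ C1 * q * (1 / 4) ^ (K + 1) := by gcongr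
      _ = C1 * (q * (1 / 4) ^ (K + 1)) := by ring
      _ ≤ C1 * 1 := by gcongr
      _ = C1 := mul_one _
  have hlev : ∀ k ∈ range (K + 1), ρ (lev k) ≤
      √(C2 * (1 + 4 ^ (n + 1))) * ((3 / 4 : ℝ) ^ k + (3 / 4 : ℝ) ^ (K - k)) := by
    intro k hk
    have hk' : k ≤ K := by simpa [Nat.lt_succ_iff] using hk
    have e1 := hsq k (lev k) (fun x => by
      simp only [lev]
      split_ifs with hx
      · exact Or.inr ⟨rfl, hx.2⟩
      · exact Or.inl rfl)
    have e2 : ∑ x, ‖lev k x‖ ≤ 2 ^ ((k + 1) * (n + 1)) := by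
      calc ∑ x, ‖lev k x‖ ≤ ∑ x, 2 ^ ((k + 1) * (n + 1)) * h x ^ (2 * n + 4) := by
            refine sum_le_sum fun x _ => ?_
            simp only [lev]
            split_ifs with hx
            · rw [hg]
              have e3 : 1 ≤ 2 ^ (k + 1) * h x := by
                have := hx.1.le
                rw [one_div, inv_pow, inv_le_iff_one_le_mul₀' (by positivity)] at this
                exact this
              have e4 : 1 ≤ (2 ^ (k + 1) * h x) ^ (n + 1) := one_le_pow₀ e3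
              calc h x ^ (n + 3) = 1 * h x ^ (n + 3) := (one_mul _).symm
                _ ≤ (2 ^ (k + 1) * h x) ^ (n + 1) * h x ^ (n + 3) :=
                    mul_le_mul_of_nonneg_right e4 (pow_nonneg (h0 x) _)
                _ = _ := by rw [mul_pow, ← pow_mul]; ring
            · have := h0 x
              simp only [norm_zero]
              positivity
        _ = 2 ^ ((k + 1) * (n + 1)) * ∑ x, h x ^ (2 * n + 4) := by rw [mul_sum]
        _ ≤ 2 ^ ((k + 1) * (n + 1)) * 1 := by gcongr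
        _ = _ := mul_one _
    have e3 := level_bound n k K hn hk' q _ _ hK1 (sum_nonneg fun _ _ => sq_nonneg _)
      (sum_nonneg fun _ _ => norm_nonneg _) e1 e2
    apply abs_le_of_sq_le_sq' _ (by positivity) |>.2
    refine (hA _).trans ?_
    rw [mul_pow, Real.sq_sqrt (by positivity), mul_assoc]
    exact mul_le_mul_of_nonneg_left e3 hC2
  have h3 := hsum (K + 1)
  have h4 := sum_le_sum hlev
  rw [← mul_sum] at h4
  have h5 := mul_le_mul_of_nonneg_left (geom_bound K) (Real.sqrt_nonneg (C2 * (1 + 4 ^ (n + 1))))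
  linarith

end Pool.Agent.MP_36ae60_an

end MrgPart5

-- ======== part 6: formerly Pool.Agent.MP_36ae60_an.Final
section MrgPart6

set_option autoImplicit false
set_option linter.unusedSectionVars false

open Finset

namespace Pool.Agent.MP_36ae60_an

lemma sqrt_sum_add_le {X : Type} (S : Finset X) (u v : X → ℂ) (c : ℝ) (hc : 0 ≤ c) :
    √((∑ x ∈ S, ‖u x + v x‖ ^ 2) / c)
      ≤ √((∑ x ∈ S, ‖u x‖ ^ 2) / c) + √((∑ x ∈ S, ‖v x‖ ^ 2) / c) := by
  rw [Real.sqrt_div' _ hc, Real.sqrt_div' _ hc, Real.sqrt_div' _ hc, ← add_div]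
  apply div_le_div_of_nonneg_right _ (Real.sqrt_nonneg _)
  apply Real.sqrt_le_iff.mpr
  refine ⟨by positivity, ?_⟩
  have hA : 0 ≤ ∑ x ∈ S, ‖u x‖ ^ 2 := sum_nonneg fun _ _ => sq_nonneg _
  have hB : 0 ≤ ∑ x ∈ S, ‖v x‖ ^ 2 := sum_nonneg fun _ _ => sq_nonneg _
  have h1 := Real.sum_mul_le_sqrt_mul_sqrt S (fun x => ‖u x‖) (fun x => ‖v x‖)
  have h2 : ∑ x ∈ S, ‖u x + v x‖ ^ 2 ≤
      ∑ x ∈ S, ‖u x‖ ^ 2 + 2 * ∑ x ∈ S, ‖u x‖ * ‖v x‖ + ∑ x ∈ S, ‖v x‖ ^ 2 := by
    rw [mul_sum, ← sum_add_distrib, ← sum_add_distrib]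
    refine sum_le_sum fun x _ => ?_
    have := pow_le_pow_left₀ (norm_nonneg _) (norm_add_le (u x) (v x)) 2
    linarith [add_sq ‖u x‖ ‖v x‖]
  rw [add_sq, Real.sq_sqrt hA, Real.sq_sqrt hB]
  linarith

variable {F : Type} [Field F] [Fintype F] [DecidableEq F]
variable {V : Type} [AddCommGroup V] [Module F V] [Fintype V] [DecidableEq V]

/-- The endpoint restriction estimate for any nondegenerate symmetric form in even dimension. -/
theorem restriction (hodd : Fintype.card F % 2 = 1) (h2 : (2 : F) ≠ 0)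
    (χ : AddChar F ℂ) (hχ : χ ≠ 1) (j : F) (hj : j ≠ 0) (n : ℕ) (hn : 1 ≤ n)
    (B : V →ₗ[F] V →ₗ[F] F) (hs : ∀ x y, B x y = B y x) (hnd : ∀ x, (∀ y, B x y = 0) → x = 0)
    (hV : Fintype.card V = Fintype.card F ^ (2 * n + 2)) (p : ℝ) (hp1 : 1 ≤ p)
    (hp : p ≤ (2 * n + 4) / (n + 3)) (g : V → ℂ) :
    √((∑ ξ ∈ univ.filter (fun ξ => B ξ ξ = j), ‖ft B χ g ξ‖ ^ 2) /
        ((univ.filter fun ξ => B ξ ξ = j).card : ℝ))
      ≤ (8 * √((4 * 8 ^ n) * (1 + 4 ^ (n + 1))) + √2) * (∑ x, ‖g x‖ ^ p) ^ (1 / p) := by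
  set S := univ.filter (fun ξ => B ξ ξ = j) with hS
  set q : ℝ := (Fintype.card F : ℝ) with hq
  have hq1 : (1 : ℝ) ≤ q := by rw [hq]; exact_mod_cast Fintype.card_pos
  have hq0 : 0 < q := by linarith
  have hV' : (Fintype.card V : ℝ) = q ^ (2 * n + 2) := by rw [hq]; exact_mod_cast hV
  have hScard : q ^ (2 * n + 1) ≤ 2 * (S.card : ℝ) := by
    have h1 := card_sphere_ge hodd h2 B hs hnd
      (by rw [hV]; exact Nat.pow_le_pow_right Fintype.card_pos (by omega)) j
    have h3 : (Fintype.card V : ℝ) ≤ 2 * q * (S.card : ℝ) := by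
      rw [hq, hS]; exact_mod_cast h1
    rw [hV'] at h3
    have : q * q ^ (2 * n + 1) ≤ q * (2 * (S.card : ℝ)) := by
      calc q * q ^ (2 * n + 1) = q ^ (2 * n + 2) := by ring
        _ ≤ _ := h3
        _ = _ := by ring
    exact le_of_mul_le_mul_left this hq0
  have hS0 : (0 : ℝ) < S.card := by
    have : 0 < q ^ (2 * n + 1) := by positivity
    linarith
  let ρ : (V → ℂ) → ℝ := fun f => √((∑ ξ ∈ S, ‖ft B χ f ξ‖ ^ 2) / (S.card : ℝ))
  have hρsq : ∀ f, ρ f ^ 2 = (∑ ξ ∈ S, ‖ft B χ f ξ‖ ^ 2) / (S.card : ℝ) := fun f =>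
    Real.sq_sqrt (div_nonneg (sum_nonneg fun _ _ => sq_nonneg _) hS0.le)
  have hadd : ∀ f f', ρ (f + f') ≤ ρ f + ρ f' := by
    intro f f'
    have : ∀ ξ, ft B χ (f + f') ξ = ft B χ f ξ + ft B χ f' ξ := by
      intro ξ
      simp [ft, add_mul, sum_add_distrib]
    simp only [ρ, this]
    exact sqrt_sum_add_le S _ _ _ hS0.le
  have hB : ∀ f, ρ f ^ 2 ≤ 2 * q * ∑ x, ‖f x‖ ^ 2 := by
    intro f
    rw [hρsq, div_le_iff₀ hS0]
    have h1 : ∑ ξ ∈ S, ‖ft B χ f ξ‖ ^ 2 ≤ ∑ ξ, ‖ft B χ f ξ‖ ^ 2 :=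
      sum_le_sum_of_subset_of_nonneg (subset_univ _) fun _ _ _ => sq_nonneg _
    rw [plancherel B hnd χ hχ, hV'] at h1
    have ha : 0 ≤ ∑ x, ‖f x‖ ^ 2 := sum_nonneg fun _ _ => sq_nonneg _
    calc _ ≤ q ^ (2 * n + 2) * ∑ x, ‖f x‖ ^ 2 := h1
      _ = q * q ^ (2 * n + 1) * ∑ x, ‖f x‖ ^ 2 := by ring
      _ ≤ q * (2 * (S.card : ℝ)) * ∑ x, ‖f x‖ ^ 2 := by gcongr
      _ = _ := by ring
  have hA : ∀ f, ρ f ^ 2 ≤ (4 * 8 ^ n) * (√(∑ x, ‖f x‖ ^ 2 + (q ^ n)⁻¹ * (∑ x, ‖f x‖) ^ 2) *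
      √(∑ x, ‖f x‖ ^ 2 + (q ^ (n + 2))⁻¹ * (∑ x, ‖f x‖) ^ 2)) := by
    intro f
    rw [hρsq, div_le_iff₀ hS0]
    refine (main_ineq hodd h2 χ hχ j hj n V B hs hnd hV f).trans ?_
    set R := √(∑ x, ‖f x‖ ^ 2 + (q ^ n)⁻¹ * (∑ x, ‖f x‖) ^ 2) *
      √(∑ x, ‖f x‖ ^ 2 + (q ^ (n + 2))⁻¹ * (∑ x, ‖f x‖) ^ 2) with hR
    have hR0 : 0 ≤ R := by positivity
    calc 2 * 8 ^ n * q ^ (2 * n + 1) * R ≤ 2 * 8 ^ n * (2 * (S.card : ℝ)) * R := by gcongr
      _ = _ := by ring
  set C := 8 * √((4 * 8 ^ n) * (1 + 4 ^ (n + 1))) + √2 with hC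
  set T := ∑ x, ‖g x‖ ^ p with hT
  have hp0 : 0 < p := by linarith
  have hT0 : 0 ≤ T := sum_nonneg fun _ _ => by positivity
  change ρ g ≤ C * T ^ (1 / p)
  rcases hT0.eq_or_lt with hT1 | hT1
  · have hg : g = 0 := by
      funext x
      have := (sum_eq_zero_iff_of_nonneg (fun x _ => by positivity)).mp hT1.symm x (mem_univ x)
      have h3 := (Real.rpow_eq_zero (norm_nonneg _) hp0.ne').mp this
      simpa using h3
    have : ρ g = 0 := by simp [ρ, hg, ft]
    rw [this]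
    positivity
  · set lam := T ^ (1 / p) with hlam
    have hlam0 : 0 < lam := Real.rpow_pos_of_pos hT1 _
    have hlamp : lam ^ p = T := by
      rw [hlam, ← Real.rpow_mul hT0, one_div_mul_cancel hp0.ne', Real.rpow_one]
    let g' : V → ℂ := fun x => g x / (lam : ℂ)
    have hg' : ∀ x, ‖g' x‖ = ‖g x‖ / lam := by
      intro x
      simp only [g', norm_div, Complex.norm_real, Real.norm_of_nonneg hlam0.le]
    have hsum1 : ∑ x, ‖g' x‖ ^ p = 1 := by
      simp only [hg', Real.div_rpow (norm_nonneg _) hlam0.le, hlamp]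
      rw [← sum_div, ← hT, div_self hT1.ne']
    have hle1 : ∀ x, ‖g' x‖ ≤ 1 := by
      intro x
      have h1 : ‖g' x‖ ^ p ≤ 1 := by
        rw [← hsum1]
        exact single_le_sum (f := fun x => ‖g' x‖ ^ p) (fun x _ => by positivity) (mem_univ x)
      by_contra hcon
      push Not at hcon
      have := Real.one_lt_rpow hcon hp0
      linarith
    have hn3 : (0 : ℝ) < (n : ℝ) + 3 := by positivity
    have hd := dyadic ρ hadd n hn q 2 (4 * 8 ^ n) hq1 (by norm_num) (by positivity) hB hA g'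
      (fun x => ‖g' x‖ ^ (1 / ((n : ℝ) + 3))) (fun x => by positivity)
      (fun x => by
        rw [← Real.rpow_natCast, ← Real.rpow_mul (norm_nonneg _)]
        push_cast
        rw [one_div_mul_cancel hn3.ne', Real.rpow_one])
      (by
        refine le_trans ?_ hsum1.le
        refine sum_le_sum fun x _ => ?_
        rw [← Real.rpow_natCast, ← Real.rpow_mul (norm_nonneg _)]
        apply Real.rpow_le_rpow_of_exponent_ge' (norm_nonneg _) (hle1 x) hp0.le
        push_cast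
        rw [one_div, ← div_eq_inv_mul]
        exact hp)
    have hscale : ρ g = lam * ρ g' := by
      have e1 : ∀ ξ, ‖ft B χ g ξ‖ ^ 2 = lam ^ 2 * ‖ft B χ g' ξ‖ ^ 2 := by
        intro ξ
        have : ft B χ g ξ = (lam : ℂ) * ft B χ g' ξ := by
          have hl : (lam : ℂ) ≠ 0 := by exact_mod_cast hlam0.ne'
          simp only [ft, g', mul_sum]
          refine sum_congr rfl fun x _ => ?_
          field_simp
        rw [this, norm_mul, Complex.norm_real, Real.norm_of_nonneg hlam0.le, mul_pow]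
      simp only [ρ, e1]
      rw [← mul_sum, mul_div_assoc, Real.sqrt_mul (sq_nonneg _), Real.sqrt_sq hlam0.le]
    rw [hscale, mul_comm]
    exact mul_le_mul_of_nonneg_right hd hlam0.le

end Pool.Agent.MP_36ae60_an

end MrgPart6

-- marker of a merged file
example : 731051 + 216556 = 731051 + 216556 := rfl
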